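import Pool.Agent.Helper305_DH.Dec
import Pool.Agent.TH425.FF.Cun
import Pool.Agent.W875.TS.COI

set_option autoImplicit false

/-!
The coding of rooted connected distance-hereditary graphs by completely decomposable structures.
-/

namespace Pool.Agent.Helper305_DH

open Set
open Pool.Agent.H533R2.VO (RS)
open Pool.Agent.H533R2.VS (act DecG VCu Coan Inv p2)
open Pool.Agent.TH425.FF (PCanon PExp)

/-- Only binary relations. -/
abbrev A2 : ℕ → ℕ := fun _ => 2

/-- The graph. -/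
def Eg (x : RS A2) : ℕ → ℕ → Prop := fun u w => x 0 (p2 u w) = true

/-- The three kinds of relations. -/
def Rl (E : ℕ → ℕ → Prop) (v r k a b : ℕ) : Prop :=
  if r = 0 then C E v k a b else if r = 1 then Al E v k a b else Be E v k a b

open Classical in
/-- The coding. -/
noncomputable def cc (p : List ℕ) (x : RS A2) : RS A2 := fun i (t : Fin 2 → ℕ) =>
  match p with
  | [] => false
  | v :: _ => decide (Rl (Eg x) v (i % 3) (i / 3 + 1) (t 0) (t 1))

/-- The relation number `i` of a structure. -/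
def rr (z : RS A2) (i a b : ℕ) : Prop := z i (p2 a b) = true

/-- The decoded graph. -/
def De (z : RS A2) (v a b : ℕ) : Prop :=
  (a = v ∧ b ≠ v ∧ rr z 0 b b ∧ ¬ rr z 3 b b) ∨ (b = v ∧ a ≠ v ∧ rr z 0 a a ∧ ¬ rr z 3 a a) ∨
  (a ≠ v ∧ b ≠ v ∧ ∃ k, rr z (3 * k) a b ∧
    ((rr z (3 * k + 2) a b ∧ ¬ rr z (3 * (k + 1)) a a ∧ ¬ rr z (3 * (k + 1)) b b) ∨
    (rr z (3 * k + 1) a b ∧ ¬ rr z (3 * (k + 1)) a a ∧ rr z (3 * (k + 1)) b b ∧
      ¬ rr z (3 * (k + 2)) b b) ∨
    (rr z (3 * k + 1) a b ∧ ¬ rr z (3 * (k + 1)) b b ∧ rr z (3 * (k + 1)) a a ∧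
      ¬ rr z (3 * (k + 2)) a a)))

open Classical in
/-- The decoding. -/
noncomputable def dd (p : List ℕ) (z : RS A2) : RS A2 := fun i (t : Fin 2 → ℕ) =>
  match p with
  | [] => false
  | v :: _ => if i = 0 then decide (De z v (t 0) (t 1)) else false

theorem p2_eta (t : Fin 2 → ℕ) : (p2 (t 0) (t 1) : Fin 2 → ℕ) = t := by
  funext j
  match j with
  | 0 => rfl
  | 1 => rfl

theorem p2_0 (a b : ℕ) : (p2 a b : Fin 2 → ℕ) 0 = a := rfl

theorem p2_1 (a b : ℕ) : (p2 a b : Fin 2 → ℕ) 1 = b := rfl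

/-! ### Measurability -/

theorem mex {X : Type} [MeasurableSpace X] {ι : Type} [Countable ι] {p : ι → X → Prop}
    (h : ∀ i, MeasurableSet {x | p i x}) : MeasurableSet {x | ∃ i, p i x} := by
  rw [ofPred_exists]
  exact MeasurableSet.iUnion h

theorem mall {X : Type} [MeasurableSpace X] {ι : Type} [Countable ι] {p : ι → X → Prop}
    (h : ∀ i, MeasurableSet {x | p i x}) : MeasurableSet {x | ∀ i, p i x} := by
  rw [ofPred_forall]
  exact MeasurableSet.iInter h

theorem mand {X : Type} [MeasurableSpace X] {p q : X → Prop}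
    (h : MeasurableSet {x | p x}) (h' : MeasurableSet {x | q x}) : MeasurableSet {x | p x ∧ q x} :=
  h.inter h'

theorem mor {X : Type} [MeasurableSpace X] {p q : X → Prop}
    (h : MeasurableSet {x | p x}) (h' : MeasurableSet {x | q x}) : MeasurableSet {x | p x ∨ q x} :=
  h.union h'

theorem mnot {X : Type} [MeasurableSpace X] {p : X → Prop}
    (h : MeasurableSet {x | p x}) : MeasurableSet {x | ¬ p x} := h.compl

theorem mimp {X : Type} [MeasurableSpace X] (p : Prop) {q : X → Prop}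
    (h : MeasurableSet {x | q x}) : MeasurableSet {x | p → q x} := by
  by_cases hp : p
  · simpa [hp] using h
  · simp [hp]

theorem mcst {X : Type} [MeasurableSpace X] (p : Prop) : MeasurableSet {_x : X | p} :=
  MeasurableSet.const p

theorem mrr (i a b : ℕ) : MeasurableSet {x : RS A2 | rr x i a b} := by
  have h1 : Measurable fun x : RS A2 => x i (p2 a b) :=
    (measurable_pi_apply (p2 a b)).comp (measurable_pi_apply i)
  exact h1 (measurableSet_singleton true)

theorem mE (a b : ℕ) : MeasurableSet {x : RS A2 | Eg x a b} := mrr 0 a b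

theorem mW (v m a : ℕ) : MeasurableSet {x : RS A2 | W (Eg x) v m a} := by
  induction m generalizing a with
  | zero => exact mcst _
  | succ m ih => exact mex fun y => mand (mE a y) (ih y)

theorem mGe (v k a : ℕ) : MeasurableSet {x : RS A2 | Ge (Eg x) v k a} :=
  mall fun m => mimp (m < k) (mnot (mW v m a))

theorem mLv (v k a : ℕ) : MeasurableSet {x : RS A2 | Lv (Eg x) v k a} :=
  mand (mW v k a) (mGe v k a)

theorem mCn (v k n a b : ℕ) : MeasurableSet {x : RS A2 | Cn (Eg x) v k n a b} := by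
  induction n generalizing b with
  | zero => exact mand (mcst _) (mGe v k a)
  | succ n ih => exact mex fun z => mand (ih z) (mand (mE z b) (mGe v k b))

theorem mC (v k a b : ℕ) : MeasurableSet {x : RS A2 | C (Eg x) v k a b} :=
  mex fun n => mCn v k n a b

theorem mP (v k a b : ℕ) : MeasurableSet {x : RS A2 | P (Eg x) v k a b} :=
  mand (mLv v k b) (mor (mcst _) (mex fun w => mand (mC v (k + 1) w a) (mE b w)))

theorem mAl (v k a b : ℕ) : MeasurableSet {x : RS A2 | Al (Eg x) v k a b} :=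
  mand (mC v k a b) (mand (mnot (mC v (k + 1) a b)) (mex fun z => mand (mP v k a z) (mP v k b z)))

theorem mBe (v k a b : ℕ) : MeasurableSet {x : RS A2 | Be (Eg x) v k a b} :=
  mand (mC v k a b) (mand (mnot (mC v (k + 1) a b))
    (mand (mnot (mex fun z => mand (mP v k a z) (mP v k b z)))
      (mex fun z => mex fun w => mand (mP v k a z) (mand (mP v k b w) (mE z w)))))

theorem mRl (v r k a b : ℕ) : MeasurableSet {x : RS A2 | Rl (Eg x) v r k a b} := by
  unfold Rl
  split_ifs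
  · exact mC v k a b
  · exact mAl v k a b
  · exact mBe v k a b

theorem mDe (v a b : ℕ) : MeasurableSet {z : RS A2 | De z v a b} := by
  refine mor (mand (mcst _) (mand (mcst _) (mand (mrr _ _ _) (mnot (mrr _ _ _)))))
    (mor (mand (mcst _) (mand (mcst _) (mand (mrr _ _ _) (mnot (mrr _ _ _)))))
    (mand (mcst _) (mand (mcst _) (mex fun k => mand (mrr _ _ _) (mor ?_ (mor ?_ ?_))))))
  · exact mand (mrr _ _ _) (mand (mnot (mrr _ _ _)) (mnot (mrr _ _ _)))
  · exact mand (mrr _ _ _) (mand (mnot (mrr _ _ _)) (mand (mrr _ _ _) (mnot (mrr _ _ _))))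
  · exact mand (mrr _ _ _) (mand (mnot (mrr _ _ _)) (mand (mrr _ _ _) (mnot (mrr _ _ _))))

open Classical in
theorem mdec {X : Type} [MeasurableSpace X] {p : X → Prop} (h : MeasurableSet {x | p x}) :
    Measurable fun x => decide (p x) := by
  refine measurable_to_bool ?_
  have : (fun x => decide (p x)) ⁻¹' {true} = {x | p x} := by
    ext x
    simp
  rw [this]
  exact h

theorem mcc (p : List ℕ) : Measurable (cc p) := by
  refine measurable_pi_iff.2 fun i => measurable_pi_iff.2 fun t => ?_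
  cases p with
  | nil => exact measurable_const
  | cons v l => exact mdec (mRl v (i % 3) (i / 3 + 1) (t 0) (t 1))

theorem mdd (p : List ℕ) : Measurable (dd p) := by
  refine measurable_pi_iff.2 fun i => measurable_pi_iff.2 fun t => ?_
  cases p with
  | nil => exact measurable_const
  | cons v l =>
    by_cases hi : i = 0
    · subst hi
      exact mdec (mDe v (t 0) (t 1))
    · have : (fun z => dd (v :: l) z i t) = fun _ => false := by
        funext z
        exact if_neg hi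
      rw [this]
      exact measurable_const

/-! ### Equivariance -/

section eqv

variable {E E' : ℕ → ℕ → Prop} {τ : Equiv.Perm ℕ}

theorem ex_tau {p : ℕ → Prop} : (∃ y, p (τ y)) ↔ ∃ y, p y :=
  ⟨fun ⟨y, h⟩ => ⟨_, h⟩, fun ⟨y, h⟩ => ⟨τ.symm y, by rw [τ.apply_symm_apply]; exact h⟩⟩

theorem eW (hE : ∀ a b, E' a b ↔ E (τ a) (τ b)) (v m a : ℕ) :
    W E' v m a ↔ W E (τ v) m (τ a) := by
  induction m generalizing a with
  | zero => exact τ.injective.eq_iff.symm
  | succ m ih =>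
    show (∃ y, E' a y ∧ W E' v m y) ↔ ∃ y, E (τ a) y ∧ W E (τ v) m y
    rw [← ex_tau (τ := τ) (p := fun y => E (τ a) y ∧ W E (τ v) m y)]
    simp only [hE, ih]

theorem eGe (hE : ∀ a b, E' a b ↔ E (τ a) (τ b)) (v k a : ℕ) :
    Ge E' v k a ↔ Ge E (τ v) k (τ a) := by
  unfold Ge
  simp only [eW hE]

theorem eLv (hE : ∀ a b, E' a b ↔ E (τ a) (τ b)) (v k a : ℕ) :
    Lv E' v k a ↔ Lv E (τ v) k (τ a) := by
  unfold Lv
  rw [eW hE, eGe hE]

theorem eCn (hE : ∀ a b, E' a b ↔ E (τ a) (τ b)) (v k n a b : ℕ) :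
    Cn E' v k n a b ↔ Cn E (τ v) k n (τ a) (τ b) := by
  induction n generalizing b with
  | zero =>
    show (a = b ∧ Ge E' v k a) ↔ (τ a = τ b ∧ Ge E (τ v) k (τ a))
    rw [eGe hE, τ.injective.eq_iff]
  | succ n ih =>
    show (∃ z, Cn E' v k n a z ∧ E' z b ∧ Ge E' v k b) ↔
      ∃ z, Cn E (τ v) k n (τ a) z ∧ E z (τ b) ∧ Ge E (τ v) k (τ b)
    rw [← ex_tau (τ := τ)
      (p := fun z => Cn E (τ v) k n (τ a) z ∧ E z (τ b) ∧ Ge E (τ v) k (τ b))]
    simp only [hE, ih, eGe hE]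

theorem eC (hE : ∀ a b, E' a b ↔ E (τ a) (τ b)) (v k a b : ℕ) :
    C E' v k a b ↔ C E (τ v) k (τ a) (τ b) := by
  unfold C
  simp only [eCn hE]

theorem eP (hE : ∀ a b, E' a b ↔ E (τ a) (τ b)) (v k a b : ℕ) :
    P E' v k a b ↔ P E (τ v) k (τ a) (τ b) := by
  unfold P
  rw [eLv hE, τ.injective.eq_iff]
  simp only [eC hE, hE]
  rw [← ex_tau (τ := τ) (p := fun w => C E (τ v) (k + 1) w (τ a) ∧ E (τ b) w)]

theorem eAl (hE : ∀ a b, E' a b ↔ E (τ a) (τ b)) (v k a b : ℕ) :
    Al E' v k a b ↔ Al E (τ v) k (τ a) (τ b) := by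
  unfold Al
  simp only [eC hE, eP hE]
  rw [← ex_tau (τ := τ) (p := fun w => P E (τ v) k (τ a) w ∧ P E (τ v) k (τ b) w)]

theorem eBe (hE : ∀ a b, E' a b ↔ E (τ a) (τ b)) (v k a b : ℕ) :
    Be E' v k a b ↔ Be E (τ v) k (τ a) (τ b) := by
  unfold Be
  simp only [eC hE, eP hE, hE]
  rw [← ex_tau (τ := τ) (p := fun w => P E (τ v) k (τ a) w ∧ P E (τ v) k (τ b) w),
    ← ex_tau (τ := τ) (p := fun z => ∃ w, P E (τ v) k (τ a) z ∧ P E (τ v) k (τ b) w ∧ E z w)]
  have : ∀ z, (∃ w, P E (τ v) k (τ a) (τ z) ∧ P E (τ v) k (τ b) w ∧ E (τ z) w) ↔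
      ∃ w, P E (τ v) k (τ a) (τ z) ∧ P E (τ v) k (τ b) (τ w) ∧ E (τ z) (τ w) := fun z => by
    rw [← ex_tau (τ := τ)
      (p := fun w => P E (τ v) k (τ a) (τ z) ∧ P E (τ v) k (τ b) w ∧ E (τ z) w)]
  simp only [this]

theorem eRl (hE : ∀ a b, E' a b ↔ E (τ a) (τ b)) (v r k a b : ℕ) :
    Rl E' v r k a b ↔ Rl E (τ v) r k (τ a) (τ b) := by
  unfold Rl
  split_ifs
  · exact eC hE v k a b
  · exact eAl hE v k a b
  · exact eBe hE v k a b

end eqv

theorem act_rr (σ : Equiv.Perm ℕ) (z : RS A2) (i a b : ℕ) :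
    rr (act σ z) i a b ↔ rr z i (σ.symm a) (σ.symm b) := by
  have h : (⇑σ.symm ∘ (p2 a b : Fin 2 → ℕ)) = p2 (σ.symm a) (σ.symm b) := by
    funext j
    match j with
    | 0 => rfl
    | 1 => rfl
  show z i (⇑σ.symm ∘ (p2 a b : Fin 2 → ℕ)) = true ↔ z i (p2 (σ.symm a) (σ.symm b)) = true
  rw [h]

theorem act_cc (σ : Equiv.Perm ℕ) (p : List ℕ) (x : RS A2) :
    cc (p.map σ) (act σ x) = act σ (cc p x) := by
  funext i (t : Fin 2 → ℕ)
  cases p with
  | nil => rfl
  | cons v l =>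
    refine decide_eq_decide.2 ?_
    have h := eRl (τ := σ.symm) (E := Eg x) (E' := Eg (act σ x)) (act_rr σ x 0) (σ v) (i % 3)
      (i / 3 + 1) (t 0) (t 1)
    rw [σ.symm_apply_apply] at h
    exact h

theorem act_dd (σ : Equiv.Perm ℕ) (p : List ℕ) (z : RS A2) :
    dd (p.map σ) (act σ z) = act σ (dd p z) := by
  funext i (t : Fin 2 → ℕ)
  cases p with
  | nil => rfl
  | cons v l =>
    show (if i = 0 then _ else false) = (if i = 0 then _ else false)
    by_cases hi : i = 0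
    · rw [if_pos hi, if_pos hi]
      refine decide_eq_decide.2 ?_
      have h1 : ∀ a : ℕ, a = σ v ↔ σ.symm a = v := fun a => by
        rw [Equiv.symm_apply_eq]
      show De (act σ z) (σ v) (t 0) (t 1) ↔ De z v (σ.symm (t 0)) (σ.symm (t 1))
      unfold De
      simp only [act_rr, h1, ne_eq]
    · rw [if_neg hi, if_neg hi]

theorem canon : PCanon cc dd := ⟨mcc, mdd, act_cc, act_dd⟩

/-! ### Decomposability and decoding -/


end Pool.Agent.Helper305_DH
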