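import Mathlib

set_option autoImplicit false

/-!
Small graphs without induced paths with four vertices have modules.
-/

namespace Pool.Agent.Helper305_DH

theorem fourP (ab ac ad bc bd cd : Prop)
    (h0 : ¬ (ab ∧ bc ∧ cd ∧ ¬ ac ∧ ¬ bd ∧ ¬ ad))
    (h1 : ¬ (ab ∧ bd ∧ cd ∧ ¬ ad ∧ ¬ bc ∧ ¬ ac))
    (h2 : ¬ (ac ∧ bc ∧ bd ∧ ¬ ab ∧ ¬ cd ∧ ¬ ad))
    (h3 : ¬ (ac ∧ cd ∧ bd ∧ ¬ ad ∧ ¬ bc ∧ ¬ ab))
    (h4 : ¬ (ad ∧ bd ∧ bc ∧ ¬ ab ∧ ¬ cd ∧ ¬ ac))
    (h5 : ¬ (ad ∧ cd ∧ bc ∧ ¬ ac ∧ ¬ bd ∧ ¬ ab))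
    (h6 : ¬ (ab ∧ ac ∧ cd ∧ ¬ bc ∧ ¬ ad ∧ ¬ bd))
    (h7 : ¬ (ab ∧ ad ∧ cd ∧ ¬ bd ∧ ¬ ac ∧ ¬ bc))
    (h8 : ¬ (bc ∧ ac ∧ ad ∧ ¬ ab ∧ ¬ cd ∧ ¬ bd))
    (h9 : ¬ (bd ∧ ad ∧ ac ∧ ¬ ab ∧ ¬ cd ∧ ¬ bc))
    (h10 : ¬ (ac ∧ ab ∧ bd ∧ ¬ bc ∧ ¬ ad ∧ ¬ cd))
    (h11 : ¬ (bc ∧ ab ∧ ad ∧ ¬ ac ∧ ¬ bd ∧ ¬ cd)) :
    ((ac ↔ bc) ∧ (ad ↔ bd)) ∨
    ((ab ↔ bc) ∧ (ad ↔ cd)) ∨
    ((ab ↔ bd) ∧ (ac ↔ cd)) ∨
    ((ab ↔ ac) ∧ (bd ↔ cd)) ∨
    ((ab ↔ ad) ∧ (bc ↔ cd)) ∨
    ((ac ↔ ad) ∧ (bc ↔ bd)) ∨
    ((ad ↔ bd) ∧ (ad ↔ cd)) ∨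
    ((ac ↔ bc) ∧ (ac ↔ cd)) ∨
    ((ab ↔ bc) ∧ (ab ↔ bd)) ∨
    ((ab ↔ ac) ∧ (ab ↔ ad)) := by
  by_cases x1 : ab <;> by_cases x2 : ac <;> by_cases x3 : ad <;> by_cases x4 : bc <;>
    by_cases x5 : bd <;> by_cases x6 : cd <;> simp_all

theorem fin4 (a b c d : ℕ) (hab : a ≠ b) (hac : a ≠ c) (had : a ≠ d) (hbc : b ≠ c) (hbd : b ≠ d)
    (hcd : c ≠ d) (e : ℕ → ℕ → Prop) (F : Finset ℕ) (hF : F = {a, b, c, d})
    (hs : ∀ x ∈ F, ∀ y ∈ F, e x y → e y x)
    (hP : ∀ a ∈ F, ∀ b ∈ F, ∀ c ∈ F, ∀ d ∈ F, e a b → e b c → e c d → ¬ e a c → ¬ e b d →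
      ¬ e a d → False) :
    ∃ X ⊆ F, 1 < X.card ∧ X.card < 4 ∧
      ∀ u ∈ X, ∀ u' ∈ X, ∀ w ∈ F, w ∉ X → (e u w ↔ e u' w) := by
  have ha : a ∈ F := by rw [hF]; simp
  have hb : b ∈ F := by rw [hF]; simp
  have hc : c ∈ F := by rw [hF]; simp
  have hd : d ∈ F := by rw [hF]; simp
  have s1 : e a b ↔ e b a := ⟨hs _ ha _ hb, hs _ hb _ ha⟩
  have s2 : e a c ↔ e c a := ⟨hs _ ha _ hc, hs _ hc _ ha⟩
  have s3 : e a d ↔ e d a := ⟨hs _ ha _ hd, hs _ hd _ ha⟩
  have s4 : e b c ↔ e c b := ⟨hs _ hb _ hc, hs _ hc _ hb⟩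
  have s5 : e b d ↔ e d b := ⟨hs _ hb _ hd, hs _ hd _ hb⟩
  have s6 : e c d ↔ e d c := ⟨hs _ hc _ hd, hs _ hd _ hc⟩
  have h4 := fourP (e a b) (e a c) (e a d) (e b c) (e b d) (e c d)
    (fun ⟨t1, t2, t3, t4, t5, t6⟩ => hP a ha b hb c hc d hd t1
        t2 t3 t4 t5 t6)
    (fun ⟨t1, t2, t3, t4, t5, t6⟩ => hP a ha b hb d hd c hc t1
        t2 (hs _ hc _ hd t3) t4 t5 t6)
    (fun ⟨t1, t2, t3, t4, t5, t6⟩ => hP a ha c hc b hb d hd t1
        (hs _ hb _ hc t2) t3 t4 t5 t6)
    (fun ⟨t1, t2, t3, t4, t5, t6⟩ => hP a ha c hc d hd b hb t1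
        t2 (hs _ hb _ hd t3) t4 (fun g => t5 (hs _ hc _ hb g)) t6)
    (fun ⟨t1, t2, t3, t4, t5, t6⟩ => hP a ha d hd b hb c hc t1
        (hs _ hb _ hd t2) t3 t4 (fun g => t5 (hs _ hd _ hc g)) t6)
    (fun ⟨t1, t2, t3, t4, t5, t6⟩ => hP a ha d hd c hc b hb t1
        (hs _ hc _ hd t2) (hs _ hb _ hc t3) t4 (fun g => t5 (hs _ hd _ hb g)) t6)
    (fun ⟨t1, t2, t3, t4, t5, t6⟩ => hP b hb a ha c hc d hd (hs _ ha _ hb t1)
        t2 t3 t4 t5 t6)
    (fun ⟨t1, t2, t3, t4, t5, t6⟩ => hP b hb a ha d hd c hc (hs _ ha _ hb t1)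
        t2 (hs _ hc _ hd t3) t4 t5 t6)
    (fun ⟨t1, t2, t3, t4, t5, t6⟩ => hP b hb c hc a ha d hd t1
        (hs _ ha _ hc t2) t3 (fun g => t4 (hs _ hb _ ha g)) t5 t6)
    (fun ⟨t1, t2, t3, t4, t5, t6⟩ => hP b hb d hd a ha c hc t1
        (hs _ ha _ hd t2) t3 (fun g => t4 (hs _ hb _ ha g)) (fun g => t5 (hs _ hd _ hc g)) t6)
    (fun ⟨t1, t2, t3, t4, t5, t6⟩ => hP c hc a ha b hb d hd (hs _ ha _ hc t1)
        t2 t3 (fun g => t4 (hs _ hc _ hb g)) t5 t6)
    (fun ⟨t1, t2, t3, t4, t5, t6⟩ => hP c hc b hb a ha d hd (hs _ hb _ hc t1)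
        (hs _ ha _ hb t2) t3 (fun g => t4 (hs _ hc _ ha g)) t5 t6)
  have base : ∀ (X : Finset ℕ) (x0 : ℕ), (∀ u ∈ X, ∀ w ∈ F, w ∉ X → (e u w ↔ e x0 w)) →
      ∀ u ∈ X, ∀ u' ∈ X, ∀ w ∈ F, w ∉ X → (e u w ↔ e u' w) := fun X x0 h u hu u' hu' w hw hX =>
    (h u hu w hw hX).trans (h u' hu' w hw hX).symm
  clear hP hs
  rcases h4 with h | h | h | h | h | h | h | h | h | h
  · refine ⟨{a, b}, ?_, by rw [Finset.card_pair hab]; omega, by rw [Finset.card_pair hab]; omega,
      base _ a ?_⟩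
    · intro z hz
      simp only [Finset.mem_insert, Finset.mem_singleton] at hz
      rcases hz with rfl | rfl <;> assumption
    · intro u hu w hw hwX
      rw [hF] at hw
      simp only [Finset.mem_insert, Finset.mem_singleton, not_or] at hu hw hwX
      rcases hw with hw | hw | hw | hw
      · exact absurd hw hwX.1
      · exact absurd hw hwX.2
      · rw [hw]
        rcases hu with hu | hu
        · rw [hu]
        · rw [hu]
          exact (Iff.rfl).trans (((h.1).symm).trans (Iff.rfl))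
      · rw [hw]
        rcases hu with hu | hu
        · rw [hu]
        · rw [hu]
          exact (Iff.rfl).trans (((h.2).symm).trans (Iff.rfl))
  · refine ⟨{a, c}, ?_, by rw [Finset.card_pair hac]; omega, by rw [Finset.card_pair hac]; omega,
      base _ a ?_⟩
    · intro z hz
      simp only [Finset.mem_insert, Finset.mem_singleton] at hz
      rcases hz with rfl | rfl <;> assumption
    · intro u hu w hw hwX
      rw [hF] at hw
      simp only [Finset.mem_insert, Finset.mem_singleton, not_or] at hu hw hwX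
      rcases hw with hw | hw | hw | hw
      · exact absurd hw hwX.1
      · rw [hw]
        rcases hu with hu | hu
        · rw [hu]
        · rw [hu]
          exact (s4.symm).trans (((h.1).symm).trans (Iff.rfl))
      · exact absurd hw hwX.2
      · rw [hw]
        rcases hu with hu | hu
        · rw [hu]
        · rw [hu]
          exact (Iff.rfl).trans (((h.2).symm).trans (Iff.rfl))
  · refine ⟨{a, d}, ?_, by rw [Finset.card_pair had]; omega, by rw [Finset.card_pair had]; omega,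
      base _ a ?_⟩
    · intro z hz
      simp only [Finset.mem_insert, Finset.mem_singleton] at hz
      rcases hz with rfl | rfl <;> assumption
    · intro u hu w hw hwX
      rw [hF] at hw
      simp only [Finset.mem_insert, Finset.mem_singleton, not_or] at hu hw hwX
      rcases hw with hw | hw | hw | hw
      · exact absurd hw hwX.1
      · rw [hw]
        rcases hu with hu | hu
        · rw [hu]
        · rw [hu]
          exact (s5.symm).trans (((h.1).symm).trans (Iff.rfl))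
      · rw [hw]
        rcases hu with hu | hu
        · rw [hu]
        · rw [hu]
          exact (s6.symm).trans (((h.2).symm).trans (Iff.rfl))
      · exact absurd hw hwX.2
  · refine ⟨{b, c}, ?_, by rw [Finset.card_pair hbc]; omega, by rw [Finset.card_pair hbc]; omega,
      base _ b ?_⟩
    · intro z hz
      simp only [Finset.mem_insert, Finset.mem_singleton] at hz
      rcases hz with rfl | rfl <;> assumption
    · intro u hu w hw hwX
      rw [hF] at hw
      simp only [Finset.mem_insert, Finset.mem_singleton, not_or] at hu hw hwX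
      rcases hw with hw | hw | hw | hw
      · rw [hw]
        rcases hu with hu | hu
        · rw [hu]
        · rw [hu]
          exact (s2.symm).trans (((h.1).symm).trans (s1))
      · exact absurd hw hwX.1
      · exact absurd hw hwX.2
      · rw [hw]
        rcases hu with hu | hu
        · rw [hu]
        · rw [hu]
          exact (Iff.rfl).trans (((h.2).symm).trans (Iff.rfl))
  · refine ⟨{b, d}, ?_, by rw [Finset.card_pair hbd]; omega, by rw [Finset.card_pair hbd]; omega,
      base _ b ?_⟩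
    · intro z hz
      simp only [Finset.mem_insert, Finset.mem_singleton] at hz
      rcases hz with rfl | rfl <;> assumption
    · intro u hu w hw hwX
      rw [hF] at hw
      simp only [Finset.mem_insert, Finset.mem_singleton, not_or] at hu hw hwX
      rcases hw with hw | hw | hw | hw
      · rw [hw]
        rcases hu with hu | hu
        · rw [hu]
        · rw [hu]
          exact (s3.symm).trans (((h.1).symm).trans (s1))
      · exact absurd hw hwX.1
      · rw [hw]
        rcases hu with hu | hu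
        · rw [hu]
        · rw [hu]
          exact (s6.symm).trans (((h.2).symm).trans (Iff.rfl))
      · exact absurd hw hwX.2
  · refine ⟨{c, d}, ?_, by rw [Finset.card_pair hcd]; omega, by rw [Finset.card_pair hcd]; omega,
      base _ c ?_⟩
    · intro z hz
      simp only [Finset.mem_insert, Finset.mem_singleton] at hz
      rcases hz with rfl | rfl <;> assumption
    · intro u hu w hw hwX
      rw [hF] at hw
      simp only [Finset.mem_insert, Finset.mem_singleton, not_or] at hu hw hwX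
      rcases hw with hw | hw | hw | hw
      · rw [hw]
        rcases hu with hu | hu
        · rw [hu]
        · rw [hu]
          exact (s3.symm).trans (((h.1).symm).trans (s2))
      · rw [hw]
        rcases hu with hu | hu
        · rw [hu]
        · rw [hu]
          exact (s5.symm).trans (((h.2).symm).trans (s4))
      · exact absurd hw hwX.1
      · exact absurd hw hwX.2
  · refine ⟨{a, b, c}, ?_, by rw [Finset.card_eq_three.2 ⟨a, b, c, hab, hac, hbc, rfl⟩]; omega, by rw [Finset.card_eq_three.2 ⟨a, b, c, hab, hac, hbc, rfl⟩]; omega,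
      base _ a ?_⟩
    · intro z hz
      simp only [Finset.mem_insert, Finset.mem_singleton] at hz
      rcases hz with rfl | rfl | rfl <;> assumption
    · intro u hu w hw hwX
      rw [hF] at hw
      simp only [Finset.mem_insert, Finset.mem_singleton, not_or] at hu hw hwX
      rcases hw with hw | hw | hw | hw
      · exact absurd hw hwX.1
      · exact absurd hw hwX.2.1
      · exact absurd hw hwX.2.2
      · rw [hw]
        rcases hu with hu | hu | hu
        · rw [hu]
        · rw [hu]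
          exact (Iff.rfl).trans (((h.1).symm).trans (Iff.rfl))
        · rw [hu]
          exact (Iff.rfl).trans (((h.2).symm).trans (Iff.rfl))
  · refine ⟨{a, b, d}, ?_, by rw [Finset.card_eq_three.2 ⟨a, b, d, hab, had, hbd, rfl⟩]; omega, by rw [Finset.card_eq_three.2 ⟨a, b, d, hab, had, hbd, rfl⟩]; omega,
      base _ a ?_⟩
    · intro z hz
      simp only [Finset.mem_insert, Finset.mem_singleton] at hz
      rcases hz with rfl | rfl | rfl <;> assumption
    · intro u hu w hw hwX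
      rw [hF] at hw
      simp only [Finset.mem_insert, Finset.mem_singleton, not_or] at hu hw hwX
      rcases hw with hw | hw | hw | hw
      · exact absurd hw hwX.1
      · exact absurd hw hwX.2.1
      · rw [hw]
        rcases hu with hu | hu | hu
        · rw [hu]
        · rw [hu]
          exact (Iff.rfl).trans (((h.1).symm).trans (Iff.rfl))
        · rw [hu]
          exact (s6.symm).trans (((h.2).symm).trans (Iff.rfl))
      · exact absurd hw hwX.2.2
  · refine ⟨{a, c, d}, ?_, by rw [Finset.card_eq_three.2 ⟨a, c, d, hac, had, hcd, rfl⟩]; omega, by rw [Finset.card_eq_three.2 ⟨a, c, d, hac, had, hcd, rfl⟩]; omega,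
      base _ a ?_⟩
    · intro z hz
      simp only [Finset.mem_insert, Finset.mem_singleton] at hz
      rcases hz with rfl | rfl | rfl <;> assumption
    · intro u hu w hw hwX
      rw [hF] at hw
      simp only [Finset.mem_insert, Finset.mem_singleton, not_or] at hu hw hwX
      rcases hw with hw | hw | hw | hw
      · exact absurd hw hwX.1
      · rw [hw]
        rcases hu with hu | hu | hu
        · rw [hu]
        · rw [hu]
          exact (s4.symm).trans (((h.1).symm).trans (Iff.rfl))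
        · rw [hu]
          exact (s5.symm).trans (((h.2).symm).trans (Iff.rfl))
      · exact absurd hw hwX.2.1
      · exact absurd hw hwX.2.2
  · refine ⟨{b, c, d}, ?_, by rw [Finset.card_eq_three.2 ⟨b, c, d, hbc, hbd, hcd, rfl⟩]; omega, by rw [Finset.card_eq_three.2 ⟨b, c, d, hbc, hbd, hcd, rfl⟩]; omega,
      base _ b ?_⟩
    · intro z hz
      simp only [Finset.mem_insert, Finset.mem_singleton] at hz
      rcases hz with rfl | rfl | rfl <;> assumption
    · intro u hu w hw hwX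
      rw [hF] at hw
      simp only [Finset.mem_insert, Finset.mem_singleton, not_or] at hu hw hwX
      rcases hw with hw | hw | hw | hw
      · rw [hw]
        rcases hu with hu | hu | hu
        · rw [hu]
        · rw [hu]
          exact (s2.symm).trans (((h.1).symm).trans (s1))
        · rw [hu]
          exact (s3.symm).trans (((h.2).symm).trans (s1))
      · exact absurd hw hwX.1
      · exact absurd hw hwX.2.1
      · exact absurd hw hwX.2.2

theorem fin3 (a b c : ℕ) (hab : a ≠ b) (hac : a ≠ c) (hbc : b ≠ c) (e : ℕ → ℕ → Prop)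
    (F : Finset ℕ) (hF : F = {a, b, c}) (hs : ∀ x ∈ F, ∀ y ∈ F, e x y → e y x) :
    ∃ X ⊆ F, 1 < X.card ∧ X.card < 3 ∧
      ∀ u ∈ X, ∀ u' ∈ X, ∀ w ∈ F, w ∉ X → (e u w ↔ e u' w) := by
  have ha : a ∈ F := by rw [hF]; simp
  have hb : b ∈ F := by rw [hF]; simp
  have hc : c ∈ F := by rw [hF]; simp
  have s1 : e a b ↔ e b a := ⟨hs _ ha _ hb, hs _ hb _ ha⟩
  have s2 : e a c ↔ e c a := ⟨hs _ ha _ hc, hs _ hc _ ha⟩
  have s3 : e b c ↔ e c b := ⟨hs _ hb _ hc, hs _ hc _ hb⟩
  have h3 : (e a c ↔ e b c) ∨ (e a b ↔ e b c) ∨ (e a b ↔ e a c) := by tauto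
  have base : ∀ (X : Finset ℕ) (x0 : ℕ), (∀ u ∈ X, ∀ w ∈ F, w ∉ X → (e u w ↔ e x0 w)) →
      ∀ u ∈ X, ∀ u' ∈ X, ∀ w ∈ F, w ∉ X → (e u w ↔ e u' w) := fun X x0 h u hu u' hu' w hw hX =>
    (h u hu w hw hX).trans (h u' hu' w hw hX).symm
  clear hs
  rcases h3 with h | h | h
  · refine ⟨{a, b}, ?_, by rw [Finset.card_pair hab]; omega, by rw [Finset.card_pair hab]; omega,
      base _ a ?_⟩
    · intro z hz
      simp only [Finset.mem_insert, Finset.mem_singleton] at hz
      rcases hz with rfl | rfl <;> assumption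
    · intro u hu w hw hwX
      rw [hF] at hw
      simp only [Finset.mem_insert, Finset.mem_singleton, not_or] at hu hw hwX
      have hw' : w = c := by
        rcases hw with hw | hw | hw
        · exact absurd hw hwX.1
        · exact absurd hw hwX.2
        · exact hw
      rw [hw']
      rcases hu with hu | hu
      · rw [hu]
      · rw [hu]
        exact (Iff.rfl).trans ((h.symm).trans (Iff.rfl))
  · refine ⟨{a, c}, ?_, by rw [Finset.card_pair hac]; omega, by rw [Finset.card_pair hac]; omega,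
      base _ a ?_⟩
    · intro z hz
      simp only [Finset.mem_insert, Finset.mem_singleton] at hz
      rcases hz with rfl | rfl <;> assumption
    · intro u hu w hw hwX
      rw [hF] at hw
      simp only [Finset.mem_insert, Finset.mem_singleton, not_or] at hu hw hwX
      have hw' : w = b := by
        rcases hw with hw | hw | hw
        · exact absurd hw hwX.1
        · exact hw
        · exact absurd hw hwX.2
      rw [hw']
      rcases hu with hu | hu
      · rw [hu]
      · rw [hu]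
        exact (s3.symm).trans ((h.symm).trans (Iff.rfl))
  · refine ⟨{b, c}, ?_, by rw [Finset.card_pair hbc]; omega, by rw [Finset.card_pair hbc]; omega,
      base _ b ?_⟩
    · intro z hz
      simp only [Finset.mem_insert, Finset.mem_singleton] at hz
      rcases hz with rfl | rfl <;> assumption
    · intro u hu w hw hwX
      rw [hF] at hw
      simp only [Finset.mem_insert, Finset.mem_singleton, not_or] at hu hw hwX
      have hw' : w = a := by
        rcases hw with hw | hw | hw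
        · exact hw
        · exact absurd hw hwX.1
        · exact absurd hw hwX.2
      rw [hw']
      rcases hu with hu | hu
      · rw [hu]
      · rw [hu]
        exact (s2.symm).trans ((h.symm).trans (s1))

theorem fin_mod (F : Finset ℕ) (hF : F.card = 3 ∨ F.card = 4) (e : ℕ → ℕ → Prop)
    (hs : ∀ x ∈ F, ∀ y ∈ F, e x y → e y x)
    (hP : ∀ a ∈ F, ∀ b ∈ F, ∀ c ∈ F, ∀ d ∈ F, e a b → e b c → e c d → ¬ e a c → ¬ e b d →
      ¬ e a d → False) :
    ∃ X ⊆ F, 1 < X.card ∧ X.card < F.card ∧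
      ∀ u ∈ X, ∀ u' ∈ X, ∀ w ∈ F, w ∉ X → (e u w ↔ e u' w) := by
  rcases hF with hF | hF
  · obtain ⟨a, b, c, hab, hac, hbc, h⟩ := Finset.card_eq_three.1 hF
    rw [hF]
    exact fin3 a b c hab hac hbc e F h hs
  · obtain ⟨a, F', haF, h, hF'⟩ := Finset.card_eq_succ.1 hF
    obtain ⟨b, c, d, hbc, hbd, hcd, h'⟩ := Finset.card_eq_three.1 hF'
    rw [h'] at haF h
    simp only [Finset.mem_insert, Finset.mem_singleton, not_or] at haF
    rw [hF]
    exact fin4 a b c d haF.1 haF.2.1 haF.2.2 hbc hbd hcd e F h.symm hs hP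

end Pool.Agent.Helper305_DH
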