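import Pool.Agent.Helper305_DH.Graph
import Pool.Agent.Helper305_DH.Fin

set_option autoImplicit false

/-!
Every set of three or four points has a nontrivial module for the relations `C`, `Al`, `Be`.
-/

namespace Pool.Agent.Helper305_DH

variable {E : ℕ → ℕ → Prop} {v : ℕ}

theorem P.self {k x : ℕ} (h : Lv E v k x) : P E v k x x := ⟨h, Or.inl rfl⟩

theorem P.eq_of {k x z : ℕ} (hx : ¬ Ge E v (k + 1) x) (h : P E v k x z) : z = x := by
  rcases h.2 with h1 | ⟨w, h1, -⟩
  · exact h1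
  · exact absurd h1.right hx

theorem P.deep {k x z : ℕ} (hx : Ge E v (k + 1) x) (h : P E v k x z) :
    ∃ w, C E v (k + 1) w x ∧ E z w := by
  rcases h.2 with h1 | h1
  · subst h1
    exact absurd hx h.1.not_ge
  · exact h1

theorem P.congr (H : DH E) {k x x' z : ℕ} (hc : C E v (k + 1) x x') (h : P E v k x z) :
    P E v k x' z := by
  obtain ⟨w, h1, h2⟩ := h.deep (hc.left H.symm)
  exact ⟨h.1, Or.inr ⟨w, h1.trans hc, h2⟩⟩

theorem P.conn (H : DH E) {k x z : ℕ} (h : P E v k x z) : C E v k z x := by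
  rcases h.2 with h1 | ⟨w, h1, h2⟩
  · subst h1
    exact C.refl h.1.2
  · have h3 : C E v k w x := h1.mono (by omega)
    exact ((C.refl h.1.2).step h2 (h3.left H.symm)).trans h3

theorem P.ne (H : DH E) {k x l : ℕ} (hx : Ge E v k x) (hl : Lv E v l x) : ∃ z, P E v k x z := by
  by_cases h1 : Ge E v (k + 1) x
  · have hkl : k + 1 ≤ l := by
      by_contra hlt
      exact h1 l (by omega) hl.1
    obtain ⟨g, g0, -, gl, gw⟩ := hl.path
    have key : ∀ i, i + (k + 1) ≤ l → C E v (k + 1) (g i) x := by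
      intro i
      induction i with
      | zero =>
        intro _
        rw [g0]
        exact C.refl h1
      | succ i ih =>
        intro hi
        have h2 := ih (by omega)
        have h3 : Ge E v (k + 1) (g (i + 1)) := (gl (i + 1) (by omega)).2.mono (by omega)
        have h4 : E (g (i + 1)) (g i) := H.symm _ _ (gw i (by omega))
        exact ((C.refl h3).step h4 (h2.left H.symm)).trans h2
    have h5 := key (l - (k + 1)) (by omega)
    have h6 := gl (l - (k + 1)) (by omega)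
    rw [show l - (l - (k + 1)) = k + 1 by omega] at h6
    obtain ⟨z, hz, hlz⟩ := h6.parent
    exact ⟨z, hlz, Or.inr ⟨_, h5, H.symm _ _ hz⟩⟩
  · exact ⟨x, P.self (Lv.of_ge hx h1)⟩

theorem P.rep (H : DH E) {k t a : ℕ} (ht : Ge E v (k + 1) t) (ha : P E v k t a) :
    ∃ y, Lv E v (k + 1) y ∧ C E v (k + 1) y t ∧ ∀ z, P E v k t z → E z y := by
  obtain ⟨w, h1, h2⟩ := ha.deep ht
  have hw : Lv E v (k + 1) w := ⟨⟨a, H.symm _ _ h2, ha.1.1⟩, h1.left H.symm⟩
  refine ⟨w, hw, h1, fun z hz => ?_⟩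
  obtain ⟨w', h3, h4⟩ := hz.deep ht
  exact F1 H hz.1 hw (h1.trans (h3.symm H.symm)) h4

theorem Md (H : DH E) {j t a b c : ℕ} (ha : P E v (j + 1) t a) (hb : P E v (j + 1) t b)
    (hc : Lv E v (j + 1) c) (hnc : ¬ P E v (j + 1) t c) (hE : E c a) : E c b := by
  have hca : C E v (j + 1) c a := (C.refl hc.2).step hE ha.1.2
  by_cases ht : Ge E v (j + 2) t
  · obtain ⟨y, hy, hyt, hz⟩ := P.rep H ht ha
    have hay := hz a ha
    have hby := hz b hb
    have hcy : ¬ E c y := fun h => hnc ⟨hc, Or.inr ⟨y, hyt, h⟩⟩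
    have hcb : C E v (j + 1) c b :=
      (hca.step hay (hy.2.mono (by omega))).step (H.symm _ _ hby) hb.1.2
    exact F2 H ha.1 hb.1 hc hca hcb hy.2 hay hby hcy hE
  · rw [hb.eq_of ht, ← ha.eq_of ht]
    exact hE

theorem Lam (H : DH E) {j t1 t2 z a b : ℕ} (hne : ¬ C E v (j + 2) t1 t2)
    (hz1 : P E v (j + 1) t1 z) (hz2 : P E v (j + 1) t2 z) (ha : P E v (j + 1) t1 a)
    (ha' : ¬ P E v (j + 1) t2 a) (hb : P E v (j + 1) t2 b) (hb' : ¬ P E v (j + 1) t1 b) :
    False := by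
  by_cases h1 : Ge E v (j + 2) t1
  · by_cases h2 : Ge E v (j + 2) t2
    · obtain ⟨y1, hy1, hyt1, hq1⟩ := P.rep H h1 ha
      obtain ⟨y2, hy2, hyt2, hq2⟩ := P.rep H h2 hb
      exact F3 H ha.1 hb.1 hz1.1 hy1.2 hy2.2 (hq1 a ha) (hq1 z hz1) (hq2 b hb) (hq2 z hz2)
        (fun h => ha' ⟨ha.1, Or.inr ⟨y2, hyt2, h⟩⟩) (fun h => hb' ⟨hb.1, Or.inr ⟨y1, hyt1, h⟩⟩)
        (fun h => hne (((hyt1.symm H.symm).step h hy2.2).trans hyt2))
    · rw [hb.eq_of h2, ← hz2.eq_of h2] at hb'
      exact hb' hz1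
  · rw [ha.eq_of h1, ← hz1.eq_of h1] at ha'
    exact ha' hz2

/-- The relations cannot distinguish `u` and `u'` from `w`. -/
def Eqv (E : ℕ → ℕ → Prop) (v u u' w : ℕ) : Prop := ∀ k,
  (C E v (k + 1) u w ↔ C E v (k + 1) u' w) ∧ (Al E v (k + 1) u w ↔ Al E v (k + 1) u' w) ∧
    (Be E v (k + 1) u w ↔ Be E v (k + 1) u' w)

/-- Intersecting attachment sets. -/
def Dd (E : ℕ → ℕ → Prop) (v k x y : ℕ) : Prop := ∃ z, P E v k x z ∧ P E v k y z

/-- Adjacent attachment sets. -/
def Aa (E : ℕ → ℕ → Prop) (v k x y : ℕ) : Prop :=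
  ∃ z w, P E v k x z ∧ P E v k y w ∧ E z w

/-- All or nothing. -/
theorem allor (H : DH E) {j x y z z' s s' : ℕ} (hn : ¬ Dd E v (j + 1) x y)
    (hz : P E v (j + 1) x z) (hz' : P E v (j + 1) x z') (hs : P E v (j + 1) y s)
    (hs' : P E v (j + 1) y s') (hE : E z s) : E z' s' := by
  have h1 : E s z' := Md H hz hz' hs.1 (fun h => hn ⟨s, h, hs⟩) (H.symm _ _ hE)
  exact Md H hs hs' hz'.1 (fun h => hn ⟨z', hz', h⟩) (H.symm _ _ h1)

theorem dec_main (H : DH E) (hconn : ∀ x, ∃ m, W E v m x) (F : Finset ℕ)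
    (hF : F.card = 3 ∨ F.card = 4) : ∃ X ⊆ F, 1 < X.card ∧ X.card < F.card ∧
      ∀ u ∈ X, ∀ u' ∈ X, ∀ w ∈ F, w ∉ X → Eqv E v u u' w := by
  classical
  by_cases hv : v ∈ F
  · refine ⟨F.erase v, Finset.erase_subset _ _, ?_, ?_, ?_⟩
    · rw [Finset.card_erase_of_mem hv]
      omega
    · rw [Finset.card_erase_of_mem hv]
      omega
    · intro u hu u' hu' w hw hwX k
      have hwv : w = v := by
        by_contra h
        exact hwX (Finset.mem_erase.2 ⟨h, hw⟩)
      subst hwv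
      have hno : ∀ x, ¬ C E w (k + 1) x w := fun x h => h.right 0 (by omega) rfl
      exact ⟨⟨fun h => absurd h (hno _), fun h => absurd h (hno _)⟩,
        ⟨fun h => absurd h.1 (hno _), fun h => absurd h.1 (hno _)⟩,
        ⟨fun h => absurd h.1 (hno _), fun h => absurd h.1 (hno _)⟩⟩
  have hstop : ∃ k, ¬ ∀ x ∈ F, ∀ y ∈ F, C E v (k + 1) x y := by
    obtain ⟨x, hx⟩ : F.Nonempty := Finset.card_pos.1 (by omega)
    obtain ⟨m, hm⟩ := hconn x
    exact ⟨m, fun h => (h x hx x hx).right m (by omega) hm⟩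
  obtain ⟨k0, h0, hmin⟩ : ∃ k0, (¬ ∀ x ∈ F, ∀ y ∈ F, C E v (k0 + 1) x y) ∧
      ∀ j < k0, ∀ x ∈ F, ∀ y ∈ F, C E v (j + 1) x y :=
    ⟨Nat.find hstop, Nat.find_spec hstop, fun j hj => not_not.1 (Nat.find_min hstop hj)⟩
  by_cases hB : ∃ x ∈ F, ∃ y ∈ F, x ≠ y ∧ C E v (k0 + 1) x y
  · obtain ⟨x, hx, y, hy, hxy, hc⟩ := hB
    have hxx : C E v (k0 + 1) x x := C.refl (hc.left H.symm)
    refine ⟨F.filter (fun z => C E v (k0 + 1) x z), Finset.filter_subset _ _, ?_, ?_, ?_⟩
    · exact Finset.one_lt_card.2 ⟨x, Finset.mem_filter.2 ⟨hx, hxx⟩, y,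
        Finset.mem_filter.2 ⟨hy, hc⟩, hxy⟩
    · refine Finset.card_lt_card ⟨Finset.filter_subset _ _, fun hsub => h0 ?_⟩
      intro a ha b hb
      exact ((Finset.mem_filter.1 (hsub ha)).2.symm H.symm).trans (Finset.mem_filter.1 (hsub hb)).2
    · intro u hu u' hu' w hw hwX k
      have h1 := (Finset.mem_filter.1 hu)
      have h1' := (Finset.mem_filter.1 hu')
      have h2 : ¬ C E v (k0 + 1) x w := fun h => hwX (Finset.mem_filter.2 ⟨hw, h⟩)
      have huu : C E v (k0 + 1) u u' := (h1.2.symm H.symm).trans h1'.2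
      have hnu : ¬ C E v (k0 + 1) u w := fun h => h2 (h1.2.trans h)
      have hnu' : ¬ C E v (k0 + 1) u' w := fun h => h2 (h1'.2.trans h)
      rcases lt_trichotomy (k + 1) k0 with h | h | h
      · have g1 := hmin k (by omega)
        have g2 := hmin (k + 1) h
        exact ⟨⟨fun _ => g1 _ h1'.1 _ hw, fun _ => g1 _ h1.1 _ hw⟩,
          ⟨fun h3 => absurd (g2 _ h1.1 _ hw) h3.2.1, fun h3 => absurd (g2 _ h1'.1 _ hw) h3.2.1⟩,
          ⟨fun h3 => absurd (g2 _ h1.1 _ hw) h3.2.1, fun h3 => absurd (g2 _ h1'.1 _ hw) h3.2.1⟩⟩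
      · have g1 := hmin k (by omega)
        subst h
        have e1 : ∀ z, P E v (k + 1) u z ↔ P E v (k + 1) u' z := fun z =>
          ⟨fun h => h.congr H huu, fun h => h.congr H (huu.symm H.symm)⟩
        refine ⟨⟨fun _ => g1 _ h1'.1 _ hw, fun _ => g1 _ h1.1 _ hw⟩, ?_, ?_⟩
        · unfold Al
          simp only [e1, g1 _ h1.1 _ hw, g1 _ h1'.1 _ hw, hnu, hnu']
        · unfold Be
          simp only [e1, g1 _ h1.1 _ hw, g1 _ h1'.1 _ hw, hnu, hnu']
      · have g3 : ¬ C E v (k + 1) u w := fun h' => hnu (h'.mono (by omega))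
        have g3' : ¬ C E v (k + 1) u' w := fun h' => hnu' (h'.mono (by omega))
        exact ⟨⟨fun h => absurd h g3, fun h => absurd h g3'⟩,
          ⟨fun h => absurd h.1 g3, fun h => absurd h.1 g3'⟩,
          ⟨fun h => absurd h.1 g3, fun h => absurd h.1 g3'⟩⟩
  push Not at hB
  rcases k0 with _ | j
  · -- all in different components
    obtain ⟨x, hx, y, hy, hxy⟩ := Finset.one_lt_card.1 (show 1 < F.card by omega)
    refine ⟨{x, y}, ?_, ?_, ?_, ?_⟩
    · intro z hz
      simp only [Finset.mem_insert, Finset.mem_singleton] at hz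
      rcases hz with rfl | rfl <;> assumption
    · rw [Finset.card_pair hxy]
      omega
    · rw [Finset.card_pair hxy]
      omega
    · intro u hu u' hu' w hw hwX k
      have hsub : ∀ u ∈ ({x, y} : Finset ℕ), u ∈ F := by
        intro z hz
        simp only [Finset.mem_insert, Finset.mem_singleton] at hz
        rcases hz with rfl | rfl <;> assumption
      have hno : ∀ u ∈ ({x, y} : Finset ℕ), ¬ C E v (k + 1) u w := by
        intro u hu h
        refine hB u (hsub u hu) w hw ?_ (h.mono (by omega))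
        rintro rfl
        exact hwX hu
      exact ⟨⟨fun h => absurd h (hno _ hu), fun h => absurd h (hno _ hu')⟩,
        ⟨fun h => absurd h.1 (hno _ hu), fun h => absurd h.1 (hno _ hu')⟩,
        ⟨fun h => absurd h.1 (hno _ hu), fun h => absurd h.1 (hno _ hu')⟩⟩
  · have hC := hmin j (by omega)
    have red : ∀ u ∈ F, ∀ u' ∈ F, ∀ w ∈ F, u ≠ w → u' ≠ w →
        (Dd E v (j + 1) u w ↔ Dd E v (j + 1) u' w) →
        (¬ Dd E v (j + 1) u w → (Aa E v (j + 1) u w ↔ Aa E v (j + 1) u' w)) →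
        Eqv E v u u' w := by
      intro u hu u' hu' w hw huw huw' hD hA k
      rcases lt_trichotomy k j with h | h | h
      · have g1 := hmin k (by omega)
        have g2 := hmin (k + 1) (by omega)
        exact ⟨⟨fun _ => g1 _ hu' _ hw, fun _ => g1 _ hu _ hw⟩,
          ⟨fun h3 => absurd (g2 _ hu _ hw) h3.2.1, fun h3 => absurd (g2 _ hu' _ hw) h3.2.1⟩,
          ⟨fun h3 => absurd (g2 _ hu _ hw) h3.2.1, fun h3 => absurd (g2 _ hu' _ hw) h3.2.1⟩⟩
      · subst h
        refine ⟨⟨fun _ => hC _ hu' _ hw, fun _ => hC _ hu _ hw⟩, ?_, ?_⟩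
        · exact ⟨fun h => ⟨hC _ hu' _ hw, hB _ hu' _ hw huw', hD.1 h.2.2⟩,
            fun h => ⟨hC _ hu _ hw, hB _ hu _ hw huw, hD.2 h.2.2⟩⟩
        · constructor
          · intro h
            exact ⟨hC _ hu' _ hw, hB _ hu' _ hw huw', fun g => h.2.2.1 (hD.2 g),
              (hA h.2.2.1).1 h.2.2.2⟩
          · intro h
            have h5 : ¬ Dd E v (k + 1) u w := fun g => h.2.2.1 (hD.1 g)
            exact ⟨hC _ hu _ hw, hB _ hu _ hw huw, h5, (hA h5).2 h.2.2.2⟩
      · have g3 : ∀ u ∈ F, u ≠ w → ¬ C E v (k + 1) u w := fun u hu hn h' =>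
          hB _ hu _ hw hn (h'.mono (by omega))
        exact ⟨⟨fun h => absurd h (g3 _ hu huw), fun h => absurd h (g3 _ hu' huw')⟩,
          ⟨fun h => absurd h.1 (g3 _ hu huw), fun h => absurd h.1 (g3 _ hu' huw')⟩,
          ⟨fun h => absurd h.1 (g3 _ hu huw), fun h => absurd h.1 (g3 _ hu' huw')⟩⟩
    have hne : ∀ x ∈ F, ∃ z, P E v (j + 1) x z := by
      intro x hx
      obtain ⟨l, hl⟩ := exists_lv (hconn x)
      exact P.ne H (hC x hx x hx).right hl
    by_cases hI : ∃ x ∈ F, ∃ y ∈ F, x ≠ y ∧ Dd E v (j + 1) x y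
    · obtain ⟨x, hx, y, hy, hxy, z0, hz0x, hz0y⟩ := hI
      have hfin : ((fun x => {z | P E v (j + 1) x z}) '' (F : Set ℕ)).Finite :=
        F.finite_toSet.image _
      obtain ⟨M, hyM, ⟨t, htF, rfl⟩, hmax⟩ := hfin.exists_le_maximal ⟨y, hy, rfl⟩
      have htF' : t ∈ F := htF
      have hyt : ∀ z, P E v (j + 1) y z → P E v (j + 1) t z := fun z hz => hyM hz
      have hmx : ∀ x' ∈ F, (∀ z, P E v (j + 1) t z → P E v (j + 1) x' z) →
          ∀ z, P E v (j + 1) x' z → P E v (j + 1) t z := fun x' hx' h z hz =>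
        hmax ⟨x', hx', rfl⟩ (fun z hz => h z hz) hz
      have hin : ∀ z ∈ F, Dd E v (j + 1) z t → ∀ s, P E v (j + 1) z s → P E v (j + 1) t s := by
        intro z hz hD s hs
        by_cases hzt : z = t
        · rw [← hzt]
          exact hs
        by_contra hns
        obtain ⟨r, hr1, hr2⟩ := hD
        refine hns (hmx z hz ?_ s hs)
        intro b hb
        by_contra hnb
        exact Lam H (hB z hz t htF' hzt) hr1 hr2 hs hns hb hnb
      have hDx : Dd E v (j + 1) x t := ⟨z0, hz0x, hyt _ hz0y⟩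
      have hDy : Dd E v (j + 1) y t := ⟨z0, hz0y, hyt _ hz0y⟩
      by_cases hall : ∀ z ∈ F, Dd E v (j + 1) z t
      · refine ⟨F.erase t, Finset.erase_subset _ _, ?_, ?_, ?_⟩
        · rw [Finset.card_erase_of_mem htF']
          omega
        · rw [Finset.card_erase_of_mem htF']
          omega
        · intro u hu u' hu' w hw hwX
          have hwt : w = t := by
            by_contra h
            exact hwX (Finset.mem_erase.2 ⟨h, hw⟩)
          rw [hwt]
          obtain ⟨hu1, hu2⟩ := Finset.mem_erase.1 hu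
          obtain ⟨hu1', hu2'⟩ := Finset.mem_erase.1 hu'
          exact red u hu2 u' hu2' t htF' hu1 hu1'
            ⟨fun _ => hall _ hu2', fun _ => hall _ hu2⟩ (fun h => absurd (hall _ hu2) h)
      · push Not at hall
        obtain ⟨o, ho, hno⟩ := hall
        refine ⟨F.filter (fun z => Dd E v (j + 1) z t), Finset.filter_subset _ _, ?_, ?_, ?_⟩
        · exact Finset.one_lt_card.2 ⟨x, Finset.mem_filter.2 ⟨hx, hDx⟩, y,
            Finset.mem_filter.2 ⟨hy, hDy⟩, hxy⟩
        · refine Finset.card_lt_card ⟨Finset.filter_subset _ _, fun hsub => ?_⟩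
          exact hno (Finset.mem_filter.1 (hsub ho)).2
        · intro u hu u' hu' w hw hwX
          obtain ⟨hu1, hu2⟩ := Finset.mem_filter.1 hu
          obtain ⟨hu1', hu2'⟩ := Finset.mem_filter.1 hu'
          have hwt : ¬ Dd E v (j + 1) w t := fun h => hwX (Finset.mem_filter.2 ⟨hw, h⟩)
          have htw : ¬ Dd E v (j + 1) t w := fun ⟨z, h1, h2⟩ => hwt ⟨z, h2, h1⟩
          have hnD : ∀ u ∈ F, Dd E v (j + 1) u t → ¬ Dd E v (j + 1) u w :=
            fun u hu hD ⟨z, h1, h2⟩ => hwt ⟨z, h2, hin u hu hD z h1⟩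
          have hnA : ∀ u ∈ F, ∀ u' ∈ F, Dd E v (j + 1) u t → Dd E v (j + 1) u' t →
              Aa E v (j + 1) u w → Aa E v (j + 1) u' w := by
            rintro u hu u' hu' hD hD' ⟨z, s, hz, hs, hE⟩
            obtain ⟨z', hz'⟩ := hne u' hu'
            exact ⟨z', s, hz', hs, allor H htw (hin u hu hD z hz) (hin u' hu' hD' z' hz') hs hs hE⟩
          refine red u hu1 u' hu1' w hw ?_ ?_ ?_ ?_
          · rintro rfl
            exact hwX hu
          · rintro rfl
            exact hwX hu'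
          · exact ⟨fun h => absurd h (hnD u hu1 hu2), fun h => absurd h (hnD u' hu1' hu2')⟩
          · intro _
            exact ⟨hnA u hu1 u' hu1' hu2 hu2', hnA u' hu1' u hu1 hu2' hu2⟩
    · push Not at hI
      choose! r hr using hne
      obtain ⟨X, hX1, hX2, hX3, hX4⟩ := fin_mod F hF (fun x y => E (r x) (r y))
        (fun x _ y _ h => H.symm _ _ h) (by
          intro a ha b hb c hc d hd h1 h2 h3 h4 h5 h6
          refine F4 H (hr a ha).1 (hr d hd).1 ?_ h1 h2 h3 h4 h5 h6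
          exact (((hr a ha).conn H).trans (hC a ha d hd)).trans (((hr d hd).conn H).symm H.symm))
      refine ⟨X, hX1, hX2, hX3, ?_⟩
      intro u hu u' hu' w hw hwX
      have hun : u ≠ w := by
        rintro rfl
        exact hwX hu
      have hun' : u' ≠ w := by
        rintro rfl
        exact hwX hu'
      have n1 := hI u (hX1 hu) w hw hun
      have n2 := hI u' (hX1 hu') w hw hun'
      have hA : ∀ u ∈ F, ¬ Dd E v (j + 1) u w → (Aa E v (j + 1) u w ↔ E (r u) (r w)) := by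
        intro u hu hn
        constructor
        · rintro ⟨z, s, hz, hs, hE⟩
          exact allor H hn hz (hr u hu) hs (hr w hw) hE
        · intro hE
          exact ⟨r u, r w, hr u hu, hr w hw, hE⟩
      refine red u (hX1 hu) u' (hX1 hu') w hw hun hun' ⟨fun h => absurd h n1, fun h => absurd h n2⟩
        fun _ => ?_
      rw [hA u (hX1 hu) n1, hA u' (hX1 hu') n2]
      exact hX4 u hu u' hu' w hw hwX

end Pool.Agent.Helper305_DH
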