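import Mathlib

set_option autoImplicit false

/-!
Distance-hereditary graphs with a root: levels, components of the levels, attachment sets.
-/

namespace Pool.Agent.Helper305_DH

/-- Induced paths `p 0, …, p n`. -/
def Ind (E : ℕ → ℕ → Prop) (n : ℕ) (p : ℕ → ℕ) : Prop :=
  ∀ i j, i < j → j ≤ n → p i ≠ p j ∧ (E (p i) (p j) ↔ j = i + 1)

/-- Walks `q 0, …, q m`. -/
def Wk (E : ℕ → ℕ → Prop) (m : ℕ) (q : ℕ → ℕ) : Prop := ∀ i < m, E (q i) (q (i + 1))

/-- Distance-hereditary graphs: every induced path is a shortest path. -/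
structure DH (E : ℕ → ℕ → Prop) : Prop where
  irr : ∀ x, ¬ E x x
  symm : ∀ x y, E x y → E y x
  geo : ∀ n p, Ind E n p → ∀ m q, Wk E m q → q 0 = p 0 → q m = p n → n ≤ m

/-- There is a walk of length `m` from `x` to `v`. -/
def W (E : ℕ → ℕ → Prop) (v : ℕ) : ℕ → ℕ → Prop
  | 0, x => x = v
  | m + 1, x => ∃ y, E x y ∧ W E v m y

/-- The distance from `v` is at least `k`. -/
def Ge (E : ℕ → ℕ → Prop) (v k x : ℕ) : Prop := ∀ m < k, ¬ W E v m x

/-- The distance from `v` is `k`. -/
def Lv (E : ℕ → ℕ → Prop) (v k x : ℕ) : Prop := W E v k x ∧ Ge E v k x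

/-- There is a walk of length `n` from `x` to `y` among the points of distance at least `k`. -/
def Cn (E : ℕ → ℕ → Prop) (v k : ℕ) : ℕ → ℕ → ℕ → Prop
  | 0, x, y => x = y ∧ Ge E v k x
  | n + 1, x, y => ∃ z, Cn E v k n x z ∧ E z y ∧ Ge E v k y

/-- The same component of the points of distance at least `k`. -/
def C (E : ℕ → ℕ → Prop) (v k x y : ℕ) : Prop := ∃ n, Cn E v k n x y

/-- The attachment set of `x` in level `k`. -/
def P (E : ℕ → ℕ → Prop) (v k x z : ℕ) : Prop :=
  Lv E v k z ∧ (z = x ∨ ∃ w, C E v (k + 1) w x ∧ E z w)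

def Al (E : ℕ → ℕ → Prop) (v k x y : ℕ) : Prop :=
  C E v k x y ∧ ¬ C E v (k + 1) x y ∧ ∃ z, P E v k x z ∧ P E v k y z

def Be (E : ℕ → ℕ → Prop) (v k x y : ℕ) : Prop :=
  C E v k x y ∧ ¬ C E v (k + 1) x y ∧ (¬ ∃ z, P E v k x z ∧ P E v k y z) ∧
    ∃ z w, P E v k x z ∧ P E v k y w ∧ E z w

section basic

variable {E : ℕ → ℕ → Prop} {v : ℕ}

theorem W.walk {m x : ℕ} (h : W E v m x) : ∃ q : ℕ → ℕ, q 0 = x ∧ q m = v ∧ Wk E m q := by
  induction m generalizing x with
  | zero => exact ⟨fun _ => x, rfl, h, fun i hi => absurd hi (by omega)⟩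
  | succ m ih =>
    obtain ⟨y, hy, hw⟩ := h
    obtain ⟨q, h0, hm, hq⟩ := ih hw
    refine ⟨fun i => if i = 0 then x else q (i - 1), if_pos rfl, ?_, ?_⟩
    · beta_reduce; rw [if_neg (by omega)]
      exact hm
    · intro i hi
      rcases Nat.eq_zero_or_pos i with rfl | h1
      · beta_reduce; rw [if_pos rfl, if_neg (by omega)]
        rw [show 0 + 1 - 1 = 0 from rfl, h0]
        exact hy
      · beta_reduce; rw [if_neg (by omega), if_neg (by omega)]
        have := hq (i - 1) (by omega)
        rw [show i - 1 + 1 = i + 1 - 1 by omega] at this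
        exact this

theorem Ge.mono {j k x : ℕ} (hjk : j ≤ k) (h : Ge E v k x) : Ge E v j x :=
  fun m hm => h m (by omega)

theorem Ge.adj {k x y : ℕ} (h : Ge E v (k + 1) x) (hE : E x y) : Ge E v k y :=
  fun m hm hw => h (m + 1) (by omega) ⟨y, hE, hw⟩

theorem Lv.uniq {j k x : ℕ} (h : Lv E v j x) (h' : Lv E v k x) : j = k := by
  rcases lt_trichotomy j k with h1 | h1 | h1
  · exact absurd h.1 (h'.2 j h1)
  · exact h1
  · exact absurd h'.1 (h.2 k h1)

theorem Lv.not_ge {k x : ℕ} (h : Lv E v k x) : ¬ Ge E v (k + 1) x :=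
  fun h' => h' k (by omega) h.1

theorem Lv.of_ge {k x : ℕ} (h : Ge E v k x) (h' : ¬ Ge E v (k + 1) x) : Lv E v k x := by
  refine ⟨?_, h⟩
  by_contra hw
  apply h'
  intro m hm
  rcases Nat.lt_succ_iff_lt_or_eq.1 hm with h1 | rfl
  · exact h m h1
  · exact hw

theorem Lv.parent {k x : ℕ} (h : Lv E v (k + 1) x) : ∃ y, E x y ∧ Lv E v k y := by
  obtain ⟨y, hy, hw⟩ := h.1
  exact ⟨y, hy, hw, h.2.adj hy⟩

theorem exists_lv {x : ℕ} (h : ∃ m, W E v m x) : ∃ k, Lv E v k x := by
  classical
  exact ⟨Nat.find h, Nat.find_spec h, fun m hm => Nat.find_min h hm⟩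

theorem Lv.path {k x : ℕ} (h : Lv E v k x) : ∃ g : ℕ → ℕ, g 0 = x ∧ g k = v ∧
    (∀ i ≤ k, Lv E v (k - i) (g i)) ∧ Wk E k g := by
  induction k generalizing x with
  | zero =>
    refine ⟨fun _ => x, rfl, h.1, fun i hi => ?_, fun i hi => absurd hi (by omega)⟩
    have : i = 0 := by omega
    subst this
    exact h
  | succ k ih =>
    obtain ⟨y, hy, hl⟩ := h.parent
    obtain ⟨g, h0, hk, hg, hw⟩ := ih hl
    refine ⟨fun i => if i = 0 then x else g (i - 1), if_pos rfl, ?_, ?_, ?_⟩
    · beta_reduce; rw [if_neg (by omega)]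
      exact hk
    · intro i hi
      rcases Nat.eq_zero_or_pos i with rfl | h1
      · beta_reduce; rw [if_pos rfl]
        exact h
      · beta_reduce; rw [if_neg (by omega)]
        have := hg (i - 1) (by omega)
        rw [show k - (i - 1) = k + 1 - i by omega] at this
        exact this
    · intro i hi
      rcases Nat.eq_zero_or_pos i with rfl | h1
      · beta_reduce; rw [if_pos rfl, if_neg (by omega)]
        rw [show 0 + 1 - 1 = 0 from rfl, h0]
        exact hy
      · beta_reduce; rw [if_neg (by omega), if_neg (by omega)]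
        have := hw (i - 1) (by omega)
        rw [show i - 1 + 1 = i + 1 - 1 by omega] at this
        exact this

theorem C.refl {k x : ℕ} (h : Ge E v k x) : C E v k x x := ⟨0, rfl, h⟩

theorem C.step {k x z y : ℕ} (h : C E v k x z) (hE : E z y) (hy : Ge E v k y) : C E v k x y := by
  obtain ⟨n, hn⟩ := h
  exact ⟨n + 1, z, hn, hE, hy⟩

theorem C.right {k x y : ℕ} (h : C E v k x y) : Ge E v k y := by
  obtain ⟨n, hn⟩ := h
  cases n with
  | zero =>
    obtain ⟨rfl, h⟩ := hn
    exact h
  | succ n =>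
    obtain ⟨z, -, -, h⟩ := hn
    exact h

theorem C.trans {k x y z : ℕ} (h : C E v k x y) (h' : C E v k y z) : C E v k x z := by
  obtain ⟨n, hn⟩ := h'
  induction n generalizing z with
  | zero =>
    obtain ⟨rfl, -⟩ := hn
    exact h
  | succ n ih =>
    obtain ⟨w, h1, h2, h3⟩ := hn
    exact (ih h1).step h2 h3

theorem C.symm (hs : ∀ x y, E x y → E y x) {k x y : ℕ} (h : C E v k x y) : C E v k y x := by
  obtain ⟨n, hn⟩ := h
  induction n generalizing y with
  | zero =>
    obtain ⟨rfl, h⟩ := hn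
    exact C.refl h
  | succ n ih =>
    obtain ⟨w, h1, h2, h3⟩ := hn
    have h4 : Ge E v k w := C.right ⟨n, h1⟩
    exact ((C.refl h3).step (hs _ _ h2) h4).trans (ih h1)

theorem C.left (hs : ∀ x y, E x y → E y x) {k x y : ℕ} (h : C E v k x y) : Ge E v k x :=
  (h.symm hs).right

theorem C.mono {j k x y : ℕ} (hjk : j ≤ k) (h : C E v k x y) : C E v j x y := by
  obtain ⟨n, hn⟩ := h
  induction n generalizing y with
  | zero =>
    obtain ⟨rfl, h⟩ := hn
    exact C.refl (h.mono hjk)
  | succ n ih =>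
    obtain ⟨w, h1, h2, h3⟩ := hn
    exact (ih h1).step h2 (h3.mono hjk)

theorem C.fn {k x y : ℕ} (h : C E v k x y) : ∃ (n : ℕ) (z : ℕ → ℕ), z 0 = x ∧ z n = y ∧
    Wk E n z ∧ ∀ i ≤ n, Ge E v k (z i) := by
  obtain ⟨n, hn⟩ := h
  refine ⟨n, ?_⟩
  induction n generalizing y with
  | zero =>
    obtain ⟨rfl, h⟩ := hn
    exact ⟨fun _ => x, rfl, rfl, fun i hi => absurd hi (by omega), fun i _ => h⟩
  | succ n ih =>
    obtain ⟨w, h1, h2, h3⟩ := hn
    obtain ⟨z, hz0, hzn, hw, hg⟩ := ih h1
    refine ⟨fun i => if i ≤ n then z i else y, ?_, ?_, ?_, ?_⟩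
    · beta_reduce; rw [if_pos (by omega)]
      exact hz0
    · beta_reduce; rw [if_neg (by omega)]
    · intro i hi
      beta_reduce; rw [if_pos (by omega)]
      rcases Nat.lt_succ_iff_lt_or_eq.1 hi with h4 | rfl
      · rw [if_pos (by omega)]
        exact hw i h4
      · rw [if_neg (by omega), hzn]
        exact h2
    · intro i hi
      show Ge E v k (if i ≤ n then z i else y)
      split_ifs with h4
      · exact hg i h4
      · exact h3

theorem C.level {k x : ℕ} : C E v k x x ↔ Ge E v k x := ⟨C.right, C.refl⟩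

end basic

section dh

variable {E : ℕ → ℕ → Prop} {v : ℕ}

theorem no3 (H : DH E) {a b c d m : ℕ} (hab : E a b) (hbc : E b c) (hcd : E c d) (h1 : ¬ E a c)
    (h2 : ¬ E b d) (h3 : ¬ E a d) (h4 : E a m) (h5 : E m d) : False := by
  have ne : ∀ {x y}, E x y → x ≠ y := fun h e => H.irr _ (e ▸ h)
  have hac : a ≠ c := fun e => h3 (e ▸ hcd)
  have hbd : b ≠ d := fun e => h3 (e ▸ hab)
  have had : a ≠ d := fun e => h1 (e ▸ H.symm _ _ hcd)
  have := H.geo 3 (fun i => if i = 0 then a else if i = 1 then b else if i = 2 then c else d) (by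
    intro i j hij hj
    have hj' : j = 1 ∨ j = 2 ∨ j = 3 := by omega
    rcases hj' with rfl | rfl | rfl
    · have : i = 0 := by omega
      subst this
      simp [ne hab, hab]
    · have : i = 0 ∨ i = 1 := by omega
      rcases this with rfl | rfl
      · simp [hac, h1]
      · simp [ne hbc, hbc]
    · have : i = 0 ∨ i = 1 ∨ i = 2 := by omega
      rcases this with rfl | rfl | rfl
      · simp [had, h3]
      · simp [hbd, h2]
      · simp [ne hcd, hcd]) 2 (fun i => if i = 0 then a else if i = 1 then m else d) (by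
    intro i hi
    have : i = 0 ∨ i = 1 := by omega
    rcases this with rfl | rfl
    · simpa using h4
    · simpa using h5) rfl rfl
  omega

theorem no4 (H : DH E) {a b c d e m : ℕ} (hab : E a b) (hbc : E b c) (hcd : E c d) (hde : E d e)
    (h1 : ¬ E a c) (h2 : ¬ E a d) (h3 : ¬ E a e) (h4 : ¬ E b d) (h5 : ¬ E b e) (h6 : ¬ E c e)
    (h7 : E a m) (h8 : E m e) : False := by
  have ne : ∀ {x y}, E x y → x ≠ y := fun h e => H.irr _ (e ▸ h)
  have hac : a ≠ c := fun e => h2 (e ▸ hcd)
  have had : a ≠ d := fun e => h3 (e ▸ hde)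
  have hae : a ≠ e := fun e' => h2 (e' ▸ H.symm _ _ hde)
  have hbd : b ≠ d := fun e => h5 (e ▸ hde)
  have hbe : b ≠ e := fun e' => h4 (e' ▸ H.symm _ _ hde)
  have hce : c ≠ e := fun e' => h5 (e' ▸ hbc)
  have := H.geo 4 (fun i => if i = 0 then a else if i = 1 then b else if i = 2 then c else
      if i = 3 then d else e) (by
    intro i j hij hj
    have hj' : j = 1 ∨ j = 2 ∨ j = 3 ∨ j = 4 := by omega
    rcases hj' with rfl | rfl | rfl | rfl
    · have : i = 0 := by omega
      subst this
      simp [ne hab, hab]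
    · have : i = 0 ∨ i = 1 := by omega
      rcases this with rfl | rfl
      · simp [hac, h1]
      · simp [ne hbc, hbc]
    · have : i = 0 ∨ i = 1 ∨ i = 2 := by omega
      rcases this with rfl | rfl | rfl
      · simp [had, h2]
      · simp [hbd, h4]
      · simp [ne hcd, hcd]
    · have : i = 0 ∨ i = 1 ∨ i = 2 ∨ i = 3 := by omega
      rcases this with rfl | rfl | rfl | rfl
      · simp [hae, h3]
      · simp [hbe, h5]
      · simp [hce, h6]
      · simp [ne hde, hde]) 2 (fun i => if i = 0 then a else if i = 1 then m else e) (by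
    intro i hi
    have : i = 0 ∨ i = 1 := by omega
    rcases this with rfl | rfl
    · simpa using h7
    · simpa using h8) rfl rfl
  omega

theorem Lv.not_adj (H : DH E) {j k x y : ℕ} (hx : Lv E v j x) (hy : Ge E v (k + 1) y)
    (hjk : j < k) : ¬ E x y := fun h => (hy.adj (H.symm _ _ h)) j hjk hx.1

/-- A point of level `k` that is adjacent to a point of a component of the higher levels is
adjacent to all points of level `k + 1` of this component. -/
theorem F1 (H : DH E) {k x y y1 : ℕ} (hx : Lv E v k x) (hy : Lv E v (k + 1) y)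
    (hc : C E v (k + 1) y y1) (hE : E x y1) : E x y := by
  classical
  have hS : ∃ n, ∃ z : ℕ → ℕ, z 0 = y ∧ (∀ i ≤ n, Ge E v (k + 1) (z i)) ∧ Wk E n z ∧
      E x (z n) := by
    obtain ⟨n, z, h0, hn, hw, hg⟩ := hc.fn
    exact ⟨n, z, h0, hg, hw, hn ▸ hE⟩
  obtain ⟨n, hn, hmin⟩ : ∃ n, (∃ z : ℕ → ℕ, z 0 = y ∧ (∀ i ≤ n, Ge E v (k + 1) (z i)) ∧
      Wk E n z ∧ E x (z n)) ∧ ∀ m < n, ¬ ∃ z : ℕ → ℕ, z 0 = y ∧
      (∀ i ≤ m, Ge E v (k + 1) (z i)) ∧ Wk E m z ∧ E x (z m) :=
    ⟨Nat.find hS, Nat.find_spec hS, fun m hm => Nat.find_min hS hm⟩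
  obtain ⟨z, h0, hg, hw, hxz⟩ := hn
  have hfirst : ∀ i < n, ¬ E x (z i) := fun i hi h =>
    hmin i hi ⟨z, h0, fun j hj => hg j (by omega), fun j hj => hw j (by omega), h⟩
  -- shortcuts
  have hcut : ∀ i j, i < j → j ≤ n → z i ≠ z j := by
    intro i j hij hj he
    refine hmin (i + (n - j)) (by omega) ⟨fun t => if t ≤ i then z t else z (t + (j - i)),
      ?_, ?_, ?_, ?_⟩
    · beta_reduce; rw [if_pos (by omega)]
      exact h0
    · intro t ht
      show Ge E v (k + 1) (if t ≤ i then z t else z (t + (j - i)))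
      split_ifs with h1
      · exact hg t (by omega)
      · exact hg _ (by omega)
    · intro t ht
      show E (if t ≤ i then z t else z (t + (j - i)))
        (if t + 1 ≤ i then z (t + 1) else z (t + 1 + (j - i)))
      rcases lt_trichotomy t i with h1 | h1 | h1
      · rw [if_pos (by omega), if_pos (by omega)]
        exact hw t (by omega)
      · subst h1
        rw [if_pos le_rfl, if_neg (by omega), he, show t + 1 + (j - t) = j + 1 by omega]
        exact hw j (by omega)
      · rw [if_neg (by omega), if_neg (by omega), show t + 1 + (j - i) = t + (j - i) + 1 by omega]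
        exact hw _ (by omega)
    · show E x (if i + (n - j) ≤ i then z (i + (n - j)) else z (i + (n - j) + (j - i)))
      split_ifs with h1
      · have h2 : n = j := by omega
        subst h2
        rw [show i + (n - n) = i by omega, he]
        exact hxz
      · rw [show i + (n - j) + (j - i) = n by omega]
        exact hxz
  have hchord : ∀ i j, i + 1 < j → j ≤ n → ¬ E (z i) (z j) := by
    intro i j hij hj he
    refine hmin (i + 1 + (n - j)) (by omega) ⟨fun t => if t ≤ i then z t else z (t + (j - i - 1)),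
      ?_, ?_, ?_, ?_⟩
    · beta_reduce; rw [if_pos (by omega)]
      exact h0
    · intro t ht
      show Ge E v (k + 1) (if t ≤ i then z t else z (t + (j - i - 1)))
      split_ifs with h1
      · exact hg t (by omega)
      · exact hg _ (by omega)
    · intro t ht
      show E (if t ≤ i then z t else z (t + (j - i - 1)))
        (if t + 1 ≤ i then z (t + 1) else z (t + 1 + (j - i - 1)))
      rcases lt_trichotomy t i with h1 | h1 | h1
      · rw [if_pos (by omega), if_pos (by omega)]
        exact hw t (by omega)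
      · subst h1
        rw [if_pos le_rfl, if_neg (by omega), show t + 1 + (j - t - 1) = j by omega]
        exact he
      · rw [if_neg (by omega), if_neg (by omega),
          show t + 1 + (j - i - 1) = t + (j - i - 1) + 1 by omega]
        exact hw _ (by omega)
    · show E x (if i + 1 + (n - j) ≤ i then z (i + 1 + (n - j)) else
        z (i + 1 + (n - j) + (j - i - 1)))
      rw [if_neg (by omega), show i + 1 + (n - j) + (j - i - 1) = n by omega]
      exact hxz
  obtain ⟨g, g0, gk, gl, gw⟩ := hx.path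
  obtain ⟨q, q0, qk, qw⟩ := hy.1.walk
  have hlen := H.geo (n + 1 + k) (fun i => if i ≤ n then z i else g (i - n - 1)) (by
    intro i j hij hj
    show (if i ≤ n then z i else g (i - n - 1)) ≠ (if j ≤ n then z j else g (j - n - 1)) ∧
      (E (if i ≤ n then z i else g (i - n - 1)) (if j ≤ n then z j else g (j - n - 1)) ↔ j = i + 1)
    by_cases hjn : j ≤ n
    · rw [if_pos hjn, if_pos (by omega)]
      refine ⟨hcut i j hij hjn, fun h => ?_, fun h => ?_⟩
      · by_contra hne
        exact hchord i j (by omega) hjn h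
      · subst h
        exact hw i (by omega)
    · rw [if_neg hjn]
      have hlj := gl (j - n - 1) (by omega)
      by_cases hin : i ≤ n
      · rw [if_pos hin]
        have hgi := hg i hin
        refine ⟨fun e => ?_, fun h => ?_, fun h => ?_⟩
        · rw [e] at hgi
          exact hgi _ (by omega) hlj.1
        · by_contra hne
          rcases Nat.eq_zero_or_pos (j - n - 1) with h1 | h1
          · rw [h1, g0] at h
            exact hfirst i (by omega) (H.symm _ _ h)
          · exact (hgi.adj h) _ (by omega) hlj.1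
        · have h1 : i = n := by omega
          subst h1
          rw [show j - i - 1 = 0 by omega, g0]
          exact H.symm _ _ hxz
      · rw [if_neg hin]
        have hli := gl (i - n - 1) (by omega)
        refine ⟨fun e => ?_, fun h => ?_, fun h => ?_⟩
        · rw [e] at hli
          have := hli.uniq hlj
          omega
        · by_contra hne
          obtain ⟨r, hr⟩ : ∃ r, k - (i - n - 1) = r + 1 := ⟨k - (i - n - 1) - 1, by omega⟩
          rw [hr] at hli
          exact Lv.not_adj H hlj hli.2 (by omega) (H.symm _ _ h)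
        · have := gw (i - n - 1) (by omega)
          rw [show i - n - 1 + 1 = j - n - 1 by omega] at this
          exact this) (k + 1) q qw (by
        show q 0 = if 0 ≤ n then z 0 else g (0 - n - 1)
        rw [if_pos (by omega), q0, h0]) (by
        show q (k + 1) = if n + 1 + k ≤ n then z (n + 1 + k) else g (n + 1 + k - n - 1)
        rw [if_neg (by omega), qk, show n + 1 + k - n - 1 = k by omega, gk])
  have hn0 : n = 0 := by omega
  subst hn0
  rw [h0] at hxz
  exact hxz

/-- A common parent. -/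
theorem par (H : DH E) {k a b : ℕ} (ha : Lv E v (k + 1) a) (hc : C E v (k + 1) a b)
    (hb : Lv E v (k + 1) b) {p : ℕ} (hp : Lv E v k p) (hE : E p b) : E p a :=
  F1 H hp ha hc hE

theorem F2 (H : DH E) {k a b c y : ℕ} (ha : Lv E v (k + 1) a) (hb : Lv E v (k + 1) b)
    (hc : Lv E v (k + 1) c) (hca : C E v (k + 1) c a) (hcb : C E v (k + 1) c b)
    (hy : Ge E v (k + 2) y) (hay : E a y) (hby : E b y) (hcy : ¬ E c y) (hE : E c a) : E c b := by
  by_contra hne
  obtain ⟨p, hpc, hp⟩ := hc.parent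
  have hpc' := H.symm _ _ hpc
  have hpa : E p a := par H ha (hca.symm H.symm) hc hp hpc'
  have hpb : E p b := par H hb (hcb.symm H.symm) hc hp hpc'
  have hpy : ¬ E p y := Lv.not_adj H hp hy (by omega)
  by_cases hab : E a b
  · exact no3 H hpc hpb hby hne hpy hcy hE hay
  · exact no3 H hE hay (H.symm _ _ hby) hcy hab hne hpc hpb

theorem F3 (H : DH E) {k a b z y1 y2 : ℕ} (ha : Lv E v (k + 1) a) (hb : Lv E v (k + 1) b)
    (hz : Lv E v (k + 1) z) (hy1 : Ge E v (k + 2) y1) (hy2 : Ge E v (k + 2) y2)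
    (h1 : E a y1) (h2 : E z y1) (h3 : E b y2) (h4 : E z y2) (h5 : ¬ E a y2) (h6 : ¬ E b y1)
    (h7 : ¬ E y1 y2) : False := by
  obtain ⟨p, hpz, hp⟩ := hz.parent
  have hpz' := H.symm _ _ hpz
  have g1 : Ge E v (k + 1) y1 := hy1.mono (by omega)
  have g2 : Ge E v (k + 1) y2 := hy2.mono (by omega)
  have hpa : E p a := par H ha (((C.refl ha.2).step h1 g1).step (H.symm _ _ h2) hz.2) hz hp hpz'
  have hpb : E p b := par H hb (((C.refl hb.2).step h3 g2).step (H.symm _ _ h4) hz.2) hz hp hpz'
  have hp1 : ¬ E p y1 := Lv.not_adj H hp hy1 (by omega)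
  have hp2 : ¬ E p y2 := Lv.not_adj H hp hy2 (by omega)
  by_cases hab : E a b
  · exact no3 H (H.symm _ _ h1) hab h3 (fun h => h6 (H.symm _ _ h)) h5 h7 (H.symm _ _ h2) h4
  · exact no4 H (H.symm _ _ h1) (H.symm _ _ hpa) hpb h3 (fun h => hp1 (H.symm _ _ h))
      (fun h => h6 (H.symm _ _ h)) h7 hab h5 hp2 (H.symm _ _ h2) h4

theorem F4 (H : DH E) {k a b c d : ℕ} (ha : Lv E v (k + 1) a)
    (hd : Lv E v (k + 1) d) (hcd : C E v (k + 1) a d)
    (h1 : E a b) (h2 : E b c) (h3 : E c d) (h4 : ¬ E a c) (h5 : ¬ E b d) (h6 : ¬ E a d) :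
    False := by
  obtain ⟨p, hpd, hp⟩ := hd.parent
  have hpd' := H.symm _ _ hpd
  have hpa : E p a := par H ha hcd hd hp hpd'
  exact no3 H h1 h2 h3 h4 h5 h6 (H.symm _ _ hpa) hpd'

end dh

end Pool.Agent.Helper305_DH
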