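import Pool.Agent.Helper305_DH.Code

set_option autoImplicit false

/-!
Vaught's conjecture for distance-hereditary graphs.
-/

namespace Pool.Agent.Helper305_DH

open Set
open Pool.Agent.H533R2.VO (RS)
open Pool.Agent.H533R2.VS (US UIso UDich act DecG VCu Coan Inv p2)
open Pool.Agent.TH425.FF (PCanon PExp)
open Pool.Agent.W875.TS (Mdl Prm MQ qt)

section sym

variable {E : ℕ → ℕ → Prop} {v : ℕ}

theorem C_comm (hs : ∀ x y, E x y → E y x) {k a b : ℕ} : C E v k a b ↔ C E v k b a :=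
  ⟨fun h => h.symm hs, fun h => h.symm hs⟩

theorem Al_comm (hs : ∀ x y, E x y → E y x) {k a b : ℕ} : Al E v k a b ↔ Al E v k b a := by
  have key : ∀ a b, Al E v k a b → Al E v k b a := by
    rintro a b ⟨h1, h2, z, h3, h4⟩
    exact ⟨h1.symm hs, fun h => h2 (h.symm hs), z, h4, h3⟩
  exact ⟨key a b, key b a⟩

theorem Be_comm (hs : ∀ x y, E x y → E y x) {k a b : ℕ} : Be E v k a b ↔ Be E v k b a := by
  have key : ∀ a b, Be E v k a b → Be E v k b a := by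
    rintro a b ⟨h1, h2, h3, z, w, h4, h5, h6⟩
    exact ⟨h1.symm hs, fun h => h2 (h.symm hs), fun ⟨z, g1, g2⟩ => h3 ⟨z, g2, g1⟩,
      w, z, h5, h4, hs _ _ h6⟩
  exact ⟨key a b, key b a⟩

theorem Rl_comm (hs : ∀ x y, E x y → E y x) {r k a b : ℕ} :
    Rl E v r k a b ↔ Rl E v r k b a := by
  unfold Rl
  split_ifs
  · exact C_comm hs
  · exact Al_comm hs
  · exact Be_comm hs

theorem Rl_eqv {u u' w : ℕ} (h : Eqv E v u u' w) (r k : ℕ) :
    Rl E v r (k + 1) u w ↔ Rl E v r (k + 1) u' w := by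
  unfold Rl
  split_ifs
  · exact (h k).1
  · exact (h k).2.1
  · exact (h k).2.2

theorem adj_lv (H : DH E) {a b i j : ℕ} (hE : E a b) (ha : Lv E v i a) (hb : Lv E v j b) :
    j ≤ i + 1 := by
  by_contra h
  exact hb.2 (i + 1) (by omega) ⟨a, H.symm _ _ hE, ha.1⟩

/-- The edges are recovered. -/
theorem dec_iff (H : DH E) (hconn : ∀ x, ∃ m, W E v m x) {a b : ℕ} (ha : a ≠ v) (hb : b ≠ v) :
    E a b ↔ ∃ k, C E v (k + 1) a b ∧
      ((Be E v (k + 1) a b ∧ ¬ C E v (k + 2) a a ∧ ¬ C E v (k + 2) b b) ∨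
      (Al E v (k + 1) a b ∧ ¬ C E v (k + 2) a a ∧ C E v (k + 2) b b ∧ ¬ C E v (k + 3) b b) ∨
      (Al E v (k + 1) a b ∧ ¬ C E v (k + 2) b b ∧ C E v (k + 2) a a ∧ ¬ C E v (k + 3) a a)) := by
  have down : ∀ a b k, E a b → Lv E v (k + 1) a → Lv E v (k + 2) b →
      C E v (k + 1) a b ∧ Al E v (k + 1) a b ∧ ¬ C E v (k + 2) a a ∧ C E v (k + 2) b b ∧
        ¬ C E v (k + 3) b b := by
    intro a b k hE hla hlb
    have h1 : C E v (k + 1) a b := (C.refl hla.2).step hE (hlb.2.mono (by omega))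
    have h2 : ∀ c, ¬ C E v (k + 2) a c := fun c h => hla.not_ge (h.left H.symm)
    exact ⟨h1, ⟨h1, h2 b, a, P.self hla, hla, Or.inr ⟨b, C.refl hlb.2, hE⟩⟩, h2 a, C.refl hlb.2,
      fun h => hlb.not_ge h.right⟩
  have up : ∀ a b k, Al E v (k + 1) a b → ¬ C E v (k + 2) a a → C E v (k + 2) b b →
      ¬ C E v (k + 3) b b → E a b := by
    intro a b k hA h1 h2 h3
    obtain ⟨g1, g2, z, hz1, hz2⟩ := hA
    have h1' : ¬ Ge E v (k + 1 + 1) a := fun h => h1 (C.refl h)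
    have h3' : ¬ Ge E v (k + 2 + 1) b := fun h => h3 (C.refl h)
    have hza := hz1.eq_of h1'
    subst hza
    obtain ⟨w, hw1, hw2⟩ := hz2.deep h2.right
    exact F1 H hz1.1 (Lv.of_ge h2.right h3') (hw1.symm H.symm) hw2
  constructor
  · intro hE
    obtain ⟨i, hi⟩ := exists_lv (hconn a)
    obtain ⟨j, hj⟩ := exists_lv (hconn b)
    have h1 := adj_lv H hE hi hj
    have h2 := adj_lv H (H.symm _ _ hE) hj hi
    have hi0 : i ≠ 0 := by
      rintro rfl
      exact ha hi.1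
    have hj0 : j ≠ 0 := by
      rintro rfl
      exact hb hj.1
    obtain ⟨k, rfl | rfl⟩ : ∃ k, i = k + 1 ∨ i = k + 1 := ⟨i - 1, by omega⟩
    all_goals
      have h3 : j = k + 1 ∨ j = k + 2 ∨ j = k := by omega
      rcases h3 with rfl | rfl | rfl
      · have g1 : C E v (k + 1) a b := (C.refl hi.2).step hE hj.2
        have g2 : ∀ c, ¬ C E v (k + 2) a c := fun c h => hi.not_ge (h.left H.symm)
        refine ⟨k, g1, Or.inl ⟨⟨g1, g2 b, ?_, a, b, P.self hi, P.self hj, hE⟩, g2 a,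
          fun h => hj.not_ge h.right⟩⟩
        rintro ⟨z, hz1, hz2⟩
        have e1 := hz1.eq_of hi.not_ge
        have e2 := hz2.eq_of hj.not_ge
        rw [← e1, ← e2] at hE
        exact H.irr _ hE
      · obtain ⟨g1, g2, g3, g4, g5⟩ := down a b k hE hi hj
        exact ⟨k, g1, Or.inr (Or.inl ⟨g2, g3, g4, g5⟩)⟩
      · obtain ⟨l, rfl⟩ : ∃ l, j = l + 1 := ⟨j - 1, by omega⟩
        obtain ⟨g1, g2, g3, g4, g5⟩ := down b a l (H.symm _ _ hE) hj hi
        exact ⟨l, g1.symm H.symm, Or.inr (Or.inr ⟨(Al_comm H.symm).1 g2, g3, g4, g5⟩)⟩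
  · rintro ⟨k, h0, ⟨h1, h2, h3⟩ | ⟨h1, h2, h3, h4⟩ | ⟨h1, h2, h3, h4⟩⟩
    · obtain ⟨g1, g2, g3, z, w, hz, hw, hE⟩ := h1
      have e1 := hz.eq_of (fun h => h2 (C.refl h))
      have e2 := hw.eq_of (fun h => h3 (C.refl h))
      rw [← e1, ← e2]
      exact hE
    · exact up a b k h1 h2 h3 h4
    · exact H.symm _ _ (up b a k ((Al_comm H.symm).1 h1) h2 h3 h4)

theorem root_iff (H : DH E) {b : ℕ} :
    E v b ↔ b ≠ v ∧ C E v 1 b b ∧ ¬ C E v 2 b b := by
  constructor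
  · intro hE
    have hb : b ≠ v := by
      rintro rfl
      exact H.irr _ hE
    refine ⟨hb, C.refl ?_, fun h => h.right 1 (by omega) ⟨v, H.symm _ _ hE, rfl⟩⟩
    intro m hm hw
    have : m = 0 := by omega
    subst this
    exact hb hw
  · rintro ⟨-, h1, h2⟩
    have h3 : Lv E v 1 b := Lv.of_ge h1.right (fun h => h2 (C.refl h))
    obtain ⟨y, hy, hyv⟩ := h3.1
    have : y = v := hyv
    subst this
    exact H.symm _ _ hy

end sym

theorem rr_cc (x : RS A2) (v : ℕ) (l : List ℕ) (i a b : ℕ) :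
    rr (cc (v :: l) x) i a b ↔ Rl (Eg x) v (i % 3) (i / 3 + 1) a b := by
  show @decide (Rl (Eg x) v (i % 3) (i / 3 + 1) a b) (Classical.propDecidable _) = true ↔ _
  exact @decide_eq_true_iff _ (Classical.propDecidable _)

theorem rr0 (x : RS A2) (v : ℕ) (l : List ℕ) (k a b : ℕ) :
    rr (cc (v :: l) x) (3 * k) a b ↔ C (Eg x) v (k + 1) a b := by
  rw [rr_cc, show 3 * k % 3 = 0 by omega, show 3 * k / 3 = k by omega]
  rfl

theorem rr1 (x : RS A2) (v : ℕ) (l : List ℕ) (k a b : ℕ) :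
    rr (cc (v :: l) x) (3 * k + 1) a b ↔ Al (Eg x) v (k + 1) a b := by
  rw [rr_cc, show (3 * k + 1) % 3 = 1 by omega, show (3 * k + 1) / 3 = k by omega]
  rfl

theorem rr2 (x : RS A2) (v : ℕ) (l : List ℕ) (k a b : ℕ) :
    rr (cc (v :: l) x) (3 * k + 2) a b ↔ Be (Eg x) v (k + 1) a b := by
  rw [rr_cc, show (3 * k + 2) % 3 = 2 by omega, show (3 * k + 2) / 3 = k by omega]
  rfl

theorem De_cc {x : RS A2} (H : DH (Eg x)) (v : ℕ) (l : List ℕ)
    (hconn : ∀ a, ∃ m, W (Eg x) v m a) (a b : ℕ) : De (cc (v :: l) x) v a b ↔ Eg x a b := by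
  have z0 : ∀ a b, rr (cc (v :: l) x) 0 a b ↔ C (Eg x) v 1 a b := fun a b => rr0 x v l 0 a b
  have z3 : ∀ a b, rr (cc (v :: l) x) 3 a b ↔ C (Eg x) v 2 a b := fun a b => rr0 x v l 1 a b
  unfold De
  simp only [rr1, rr2, rr0, z0, z3]
  by_cases ha : a = v
  · subst ha
    have := root_iff (v := a) H (b := b)
    rw [this]
    constructor
    · rintro (⟨-, h1, h2, h3⟩ | ⟨h1, h2, -⟩ | ⟨h1, -⟩)
      · exact ⟨h1, h2, h3⟩
      · exact absurd rfl h2
      · exact absurd rfl h1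
    · rintro ⟨h1, h2, h3⟩
      exact Or.inl ⟨rfl, h1, h2, h3⟩
  · by_cases hb : b = v
    · subst hb
      have h4 : Eg x a b ↔ Eg x b a := ⟨H.symm _ _, H.symm _ _⟩
      rw [h4, root_iff (v := b) H (b := a)]
      constructor
      · rintro (⟨h1, -⟩ | ⟨-, h1, h2, h3⟩ | ⟨-, h1, -⟩)
        · exact absurd h1 ha
        · exact ⟨h1, h2, h3⟩
        · exact absurd rfl h1
      · rintro ⟨h1, h2, h3⟩
        exact Or.inr (Or.inl ⟨rfl, h1, h2, h3⟩)
    · rw [dec_iff H hconn ha hb]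
      constructor
      · rintro (⟨h1, -⟩ | ⟨h1, -⟩ | ⟨-, -, h⟩)
        · exact absurd h1 ha
        · exact absurd h1 hb
        · exact h
      · intro h
        exact Or.inr (Or.inr ⟨ha, hb, h⟩)

/-- Only the relation number zero is used. -/
def On (x : RS A2) : Prop := ∀ i, i ≠ 0 → ∀ t, x i t = false

theorem dd_cc {x : RS A2} (hx : On x) (H : DH (Eg x)) (v : ℕ) (l : List ℕ)
    (hconn : ∀ a, ∃ m, W (Eg x) v m a) : dd (v :: l) (cc (v :: l) x) = x := by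
  funext i (t : Fin 2 → ℕ)
  by_cases hi : i = 0
  · subst hi
    have h1 : dd (v :: l) (cc (v :: l) x) 0 t = true ↔ x 0 t = true := by
      have h0 : dd (v :: l) (cc (v :: l) x) 0 t =
          @decide (De (cc (v :: l) x) v (t 0) (t 1)) (Classical.propDecidable _) := by
        show (if (0 : ℕ) = 0 then
          @decide (De (cc (v :: l) x) v (t 0) (t 1)) (Classical.propDecidable _) else false) = _
        exact if_pos rfl
      rw [h0, @decide_eq_true_iff _ (Classical.propDecidable _), De_cc H v l hconn]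
      show x 0 (p2 (t 0) (t 1)) = true ↔ _
      rw [p2_eta]
    exact Bool.eq_iff_iff.2 h1
  · rw [hx i hi]
    exact if_neg hi

theorem dec_cc {x : RS A2} (H : DH (Eg x)) (v : ℕ) (l : List ℕ)
    (hconn : ∀ a, ∃ m, W (Eg x) v m a) : DecG (cc (v :: l) x) := by
  refine ⟨fun i hi => absurd rfl hi, ?_⟩
  intro F hF
  obtain ⟨X, hX1, hX2, hX3, hX4⟩ := dec_main H hconn F hF
  refine ⟨X, hX1, hX2, hX3, fun u hu u' hu' w hw hwX i => ?_⟩
  have h := hX4 u hu u' hu' w hw hwX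
  have h1 : cc (v :: l) x i (p2 u w) = cc (v :: l) x i (p2 u' w) :=
    decide_eq_decide.2 (Rl_eqv h (i % 3) (i / 3))
  have h2 : cc (v :: l) x i (p2 w u) = cc (v :: l) x i (p2 w u') := by
    refine decide_eq_decide.2 ?_
    show Rl (Eg x) v (i % 3) (i / 3 + 1) w u ↔ Rl (Eg x) v (i % 3) (i / 3 + 1) w u'
    rw [Rl_comm H.symm, Rl_comm H.symm (a := w)]
    exact Rl_eqv h (i % 3) (i / 3)
  show (if A2 i = 2 then cc (v :: l) x i (p2 u w) else false) =
    (if A2 i = 2 then cc (v :: l) x i (p2 u' w) else false) ∧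
    (if A2 i = 2 then cc (v :: l) x i (p2 w u) else false) =
    (if A2 i = 2 then cc (v :: l) x i (p2 w u') else false)
  rw [h1, h2]
  exact ⟨rfl, rfl⟩

/-- The base class. -/
def VH : RS A2 → Prop := PExp cc dd DecG

theorem vh_of {x : RS A2} (hx : On x) (H : DH (Eg x)) (hconn : ∀ a, ∃ m, W (Eg x) 0 m a) :
    VH x := ⟨[0], dec_cc H 0 [] hconn, dd_cc hx H 0 [] hconn⟩

theorem vcu_VH : VCu VH :=
  Pool.Agent.TH425.FF.pexp_vcu canon (Pool.Agent.H533R2.VS.vs_dec A2)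
    (Pool.Agent.H533R2.VS.vs_kde A2).1 (Pool.Agent.H533R2.VS.vs_kde A2).2

theorem vcu_MQ : VCu (MQ VH) :=
  Pool.Agent.W875.TS.ts_mod A2 (fun _ => Nat.succ_pos 1) VH vcu_VH

/-! ### Quotients -/

theorem mdl_of {x : RS A2} (hx : On x) {Y : Set ℕ}
    (h : ∀ a ∈ Y, ∀ b, b ∉ Y → ¬ Eg x a b ∧ ¬ Eg x b a) : Mdl x Y := by
  intro i t k l b hk hb hl
  by_cases hi : i = 0
  · subst hi
    have key : ∀ a b : ℕ, ¬ Eg x a b → x 0 (p2 a b) = false := fun a b h =>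
      Bool.eq_false_iff.2 h
    have e1 : ∀ s : Fin 2 → ℕ, x 0 s = x 0 (p2 (s 0) (s 1)) := fun s => by rw [p2_eta]
    show x 0 (Function.update (t : Fin 2 → ℕ) (k : Fin 2) b) = x 0 (t : Fin 2 → ℕ)
    rw [e1, e1 t]
    match (k : Fin 2), (l : Fin 2), hk, hl with
    | 0, 0, hk, hl => exact absurd hk hl
    | 1, 1, hk, hl => exact absurd hk hl
    | 0, 1, hk, hl =>
      show x 0 (p2 b (t (1 : Fin 2))) = x 0 (p2 (t (0 : Fin 2)) (t (1 : Fin 2)))
      rw [key _ _ (h b hb _ hl).1, key _ _ (h _ hk _ hl).1]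
    | 1, 0, hk, hl =>
      show x 0 (p2 (t (0 : Fin 2)) b) = x 0 (p2 (t (0 : Fin 2)) (t (1 : Fin 2)))
      rw [key _ _ (h b hb _ hl).2, key _ _ (h _ hk _ hl).2]
  · rw [hx i hi, hx i hi]

theorem conn_of_prm {x : RS A2} (hx : On x) (H : DH (Eg x)) (hp : Prm x) (a : ℕ) :
    ∃ m, W (Eg x) 0 m a := by
  have h1 : Mdl x {a | ∃ m, W (Eg x) 0 m a} := by
    refine mdl_of hx fun a ha b hb => ?_
    obtain ⟨m, hm⟩ := ha
    exact ⟨fun h => hb ⟨m + 1, a, H.symm _ _ h, hm⟩, fun h => hb ⟨m + 1, a, h, hm⟩⟩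
  rcases hp _ h1 with h2 | h2
  · exfalso
    have h0 : (0 : ℕ) ∈ {a | ∃ m, W (Eg x) 0 m a} := ⟨0, rfl⟩
    have hiso : ∀ b, ¬ Eg x 0 b := by
      intro b hb
      have hb' : b ∈ {a | ∃ m, W (Eg x) 0 m a} := ⟨1, 0, H.symm _ _ hb, rfl⟩
      rw [h2 h0 hb'] at hb
      exact H.irr _ hb
    have h3 : Mdl x {a | a ≠ 0} := by
      refine mdl_of hx fun a ha b hb => ?_
      have hb0 : b = 0 := by
        by_contra h
        exact hb h
      subst hb0
      exact ⟨fun h => hiso a (H.symm _ _ h), hiso a⟩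
    rcases hp _ h3 with h4 | h4
    · have : (1 : ℕ) = 2 := h4 (show (1 : ℕ) ≠ 0 by omega) (show (2 : ℕ) ≠ 0 by omega)
      omega
    · have : (0 : ℕ) ∈ ({a | a ≠ 0} : Set ℕ) := by
        rw [h4]
        exact mem_univ _
      exact this rfl
  · have : a ∈ {a | ∃ m, W (Eg x) 0 m a} := by
      rw [h2]
      exact mem_univ _
    exact this

end Pool.Agent.Helper305_DH
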