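import Pool.Agent.Helper305_DH.Main

set_option autoImplicit false

/-!
From the language with infinitely many binary relations to graphs with unary predicates.
-/

namespace Pool.Agent.Helper305_DH

open Set MeasureTheory
open Pool.Agent.H533R2.VO (RS)
open Pool.Agent.H533R2.VS (US UIso UDich VCu p2)
open Pool.Agent.W875.TS (Mdl Prm MQ qt)

/-- Graphs with unary predicates. -/
abbrev GU : Type := (ℕ → ℕ → Bool) × (ℕ → ℕ → Bool)

/-- Isomorphisms. -/
def IsS (σ : Equiv.Perm ℕ) (x y : GU) : Prop :=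
  (∀ m n, y.1 (σ m) (σ n) = x.1 m n) ∧ ∀ i m, y.2 i (σ m) = x.2 i m

/-- Modules of a binary relation. -/
def MdE (E : ℕ → ℕ → Bool) (X : Set ℕ) : Prop :=
  ∀ u, u ∉ X → ∀ v ∈ X, ∀ w ∈ X, E u v = E u w ∧ E v u = E w u

/-- Prime binary relations. -/
def PrE (E : ℕ → ℕ → Bool) : Prop := ∀ X : Set ℕ, MdE E X → X.Subsingleton ∨ X = Set.univ

/-- Quotients. -/
def quo (E : ℕ → ℕ → Bool) (e : ℕ → ℕ) : ℕ → ℕ → Bool :=
  fun m n => if m = n then false else E (e m) (e n)

/-- The first relation. -/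
def rl (x : RS A2) : ℕ → ℕ → Bool := fun a b => x 0 (p2 a b)

theorem rl_v (x : RS A2) (t : Fin 2 → ℕ) : x 0 t = rl x (t 0) (t 1) := by
  unfold rl
  rw [p2_eta]

theorem mdl_iff {x : RS A2} (h0 : On x) {X : Set ℕ} : Mdl x X ↔ MdE (rl x) X := by
  constructor
  · intro h u hu v hv w hw
    refine ⟨?_, ?_⟩
    · have h1 := h 0 (![u, w] : Fin 2 → ℕ) (1 : Fin 2) (0 : Fin 2) v hw hv hu
      rw [rl_v x, rl_v x] at h1
      exact h1
    · have h1 := h 0 (![w, u] : Fin 2 → ℕ) (0 : Fin 2) (1 : Fin 2) v hw hv hu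
      rw [rl_v x, rl_v x] at h1
      exact h1
  · intro h i
    by_cases hi : i = 0
    · subst hi
      intro (t : Fin 2 → ℕ) (k : Fin 2) (l : Fin 2) b hk hb hl
      show x 0 (Function.update t k b : Fin 2 → ℕ) = x 0 t
      rw [rl_v x, rl_v x]
      match k, l with
      | 0, 0 => exact absurd hk hl
      | 1, 1 => exact absurd hk hl
      | 0, 1 => exact (h (t 1) hl b hb (t 0) hk).2
      | 1, 0 => exact (h (t 0) hl b hb (t 1) hk).1
    · intro t k l b _ _ _
      rw [h0 i hi, h0 i hi]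

theorem on_qt {x : RS A2} (h0 : On x) (e : ℕ → ℕ) : On (qt x e) := by
  classical
  intro i hi v
  show (if ∃ j l, v j ≠ v l then x i (e ∘ v) else false) = false
  split_ifs
  · exact h0 i hi _
  · rfl

theorem rl_qt (x : RS A2) (e : ℕ → ℕ) : rl (qt x e) = quo (rl x) e := by
  classical
  funext m n
  show (if ∃ j l, (p2 m n : Fin 2 → ℕ) j ≠ (p2 m n : Fin 2 → ℕ) l then
    x 0 (e ∘ (p2 m n : Fin 2 → ℕ)) else false) = (if m = n then false else rl x (e m) (e n))
  by_cases h : m = n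
  · rw [if_pos h, if_neg]
    rintro ⟨j, l, hjl⟩
    apply hjl
    subst h
    match j, l with
    | 0, 0 => rfl
    | 0, 1 => rfl
    | 1, 0 => rfl
    | 1, 1 => rfl
  · rw [if_neg h, if_pos ⟨0, 1, h⟩, rl_v x]
    rfl

/-- All infinite prime quotients are distance-hereditary. -/
def TQ (E : ℕ → ℕ → Bool) : Prop := ∀ (X : ℕ → Set ℕ) (e : ℕ → ℕ),
  (∀ n, e n ∈ X n) → (∀ n, MdE E (X n)) → (∀ m n, m ≠ n → Disjoint (X m) (X n)) →
  MdE E (⋃ n, X n) → PrE (quo E e) → DH fun a b => quo E e a b = true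

theorem mq_of {x : RS A2} (h0 : On x) (h : TQ (rl x)) : MQ VH x := by
  intro X e h1 h2 h3 h4 h5
  have hg := h X e h1 (fun n => (mdl_iff h0).1 (h2 n)) h3 ((mdl_iff h0).1 h4) (by
    rw [← rl_qt]
    exact fun Y hY => h5 Y ((mdl_iff (on_qt h0 e)).2 hY))
  have hD : DH (Eg (qt x e)) := by
    have e1 : Eg (qt x e) = fun a b => quo (rl x) e a b = true := by
      funext a b
      rw [← rl_qt]
      rfl
    rw [e1]
    exact hg
  exact vh_of (on_qt h0 e) hD (conn_of_prm (on_qt h0 e) hD h5)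

/-- the structure -/
def rd (z : US A2) : GU := (rl z.1, z.2)

def wr (x : GU) : US A2 :=
  (fun i (v : Fin 2 → ℕ) => if i = 0 then x.1 (v 0) (v 1) else false, x.2)

theorem rd_wr (x : GU) : rd (wr x) = x := by
  refine Prod.ext ?_ rfl
  funext a b
  show (if (0 : ℕ) = 0 then x.1 a b else false) = _
  rw [if_pos rfl]

theorem wr_rd {z : US A2} (h : On z.1) : wr (rd z) = z := by
  refine Prod.ext ?_ rfl
  funext i
  by_cases hi : i = 0
  · subst hi
    funext (v : Fin 2 → ℕ)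
    show (if (0 : ℕ) = 0 then rl z.1 (v 0) (v 1) else false) = z.1 0 v
    rw [if_pos rfl, ← rl_v]
  · funext v
    show (if i = 0 then rl z.1 (v 0) (v 1) else false) = z.1 i v
    rw [if_neg hi, h i hi]

theorem cont_rd : Continuous rd := by
  refine Continuous.prodMk ?_ continuous_snd
  exact continuous_pi fun a => continuous_pi fun b => (continuous_apply _).comp
    ((continuous_apply (A := fun i => (Fin (A2 i) → ℕ) → Bool) 0).comp continuous_fst)

theorem is_rd {x y : US A2} (h : UIso x y) : ∃ σ, IsS σ (rd x) (rd y) := by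
  obtain ⟨σ, h1, h2⟩ := h
  refine ⟨σ, fun m n => ?_, h2⟩
  have h3 := h1 0 (p2 m n)
  have e : (⇑σ ∘ (p2 m n : Fin 2 → ℕ)) = p2 (σ m) (σ n) := by
    funext j
    match j with
    | 0 => rfl
    | 1 => rfl
  show y.1 0 (p2 (σ m) (σ n)) = x.1 0 (p2 m n)
  rw [← h3]
  exact congrArg (y.1 0) e.symm

theorem is_wr {x y : GU} {σ : Equiv.Perm ℕ} (h : IsS σ x y) : UIso (wr x) (wr y) := by
  refine ⟨σ, fun i (v : Fin 2 → ℕ) => ?_, h.2⟩
  show (if i = 0 then y.1 (σ (v 0)) (σ (v 1)) else false) =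
    (if i = 0 then x.1 (v 0) (v 1) else false)
  rw [h.1]

theorem on_wr (x : GU) : On (wr x).1 := fun _ hi _ => if_neg hi

theorem uiso_symm' {x y : US A2} (h : UIso x y) : UIso y x :=
  Pool.Agent.TH425.FF.uiso_symm h

theorem outG (B : Set GU) (hB : MeasurableSet B) (hT : ∀ x ∈ B, TQ x.1)
    (hi : ∀ x ∈ B, ∀ (y : GU) (σ : Equiv.Perm ℕ), IsS σ x y → y ∈ B) :
    (∃ f : ℕ → GU, ∀ x ∈ B, ∃ (n : ℕ) (σ : Equiv.Perm ℕ), IsS σ (f n) x) ∨
    (∃ c : (ℕ → Bool) → GU, Continuous c ∧ (∀ s, c s ∈ B) ∧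
      ∀ s t, (∃ σ : Equiv.Perm ℕ, IsS σ (c s) (c t)) → s = t) := by
  have hOn : MeasurableSet {z : US A2 | On z.1} := by
    have e : {z : US A2 | On z.1} = ⋂ i : ℕ, ⋂ (_ : i ≠ 0), ⋂ v : Fin (A2 i) → ℕ,
        {z : US A2 | z.1 i v = false} := by
      ext z
      simp only [mem_iInter]
      rfl
    rw [e]
    refine (isClosed_iInter fun i => isClosed_iInter fun _ => isClosed_iInter fun v => ?_).measurableSet
    exact isClosed_eq ((continuous_apply v).comp ((continuous_apply i).comp continuous_fst))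
      continuous_const
  have key : ∀ x y : US A2, UIso x y → (On x.1 ∧ rd x ∈ B) → (On y.1 ∧ rd y ∈ B) := by
    rintro x y h ⟨h1, h2⟩
    obtain ⟨τ, hτ⟩ := is_rd h
    obtain ⟨σ, hσ, -⟩ := h
    refine ⟨fun i hi' v => ?_, hi _ h2 _ τ hτ⟩
    have e : v = ⇑σ ∘ (⇑σ.symm ∘ v) := by
      funext j
      exact (σ.apply_symm_apply _).symm
    rw [e, hσ, h1 i hi']
  rcases vcu_MQ {z : US A2 | On z.1 ∧ rd z ∈ B} (hOn.inter (cont_rd.measurable hB))
    (fun x y h => ⟨key x y h, key y x (uiso_symm' h)⟩)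
    (fun z hz => mq_of hz.1 (hT _ hz.2)) with ⟨f, hf⟩ | ⟨g, hg, hgB, hgi⟩
  · left
    refine ⟨fun n => rd (f n), fun x hx => ?_⟩
    obtain ⟨n, h⟩ := hf (wr x) ⟨on_wr x, by rw [rd_wr]; exact hx⟩
    obtain ⟨σ, h1⟩ := is_rd h
    refine ⟨n, σ, ?_⟩
    rw [rd_wr] at h1
    exact h1
  · right
    refine ⟨fun c => rd (g c), cont_rd.comp hg, fun c => (hgB c).2, fun s t h => ?_⟩
    obtain ⟨σ, h⟩ := h
    have h1 := is_wr h
    rw [wr_rd (hgB s).1, wr_rd (hgB t).1] at h1
    exact hgi s t h1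

/-- Quotients of distance-hereditary graphs. -/
theorem tq_of_dh {E : ℕ → ℕ → Bool} (H : DH fun a b => E a b = true) : TQ E := by
  intro X e h1 _ h3 _ _
  have he : Function.Injective e := by
    intro m n hmn
    by_contra hne
    have := Set.disjoint_left.1 (h3 m n hne) (h1 m)
    rw [hmn] at this
    exact this (h1 n)
  have q1 : ∀ m n, quo E e m n = true → E (e m) (e n) = true := by
    intro m n h
    unfold quo at h
    split_ifs at h
    exact h
  have q2 : ∀ m n, m ≠ n → quo E e m n = E (e m) (e n) := fun m n h => if_neg h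
  refine ⟨fun a h => H.irr _ (q1 a a h), fun a b h => ?_, fun n p hp m q hq h0 hn => ?_⟩
  · have hab : a ≠ b := by
      rintro rfl
      exact H.irr _ (q1 a a h)
    have h' := H.symm _ _ (q1 a b h)
    show quo E e b a = true
    rw [q2 b a (Ne.symm hab)]
    exact h'
  · refine H.geo n (fun i => e (p i)) (fun i j hij hj => ?_) m (fun i => e (q i))
      (fun i hi => q1 _ _ (hq i hi)) (congrArg e h0) (congrArg e hn)
    obtain ⟨h5, h6⟩ := hp i j hij hj
    refine ⟨fun h => h5 (he h), ?_⟩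
    rw [← h6]
    show E (e (p i)) (e (p j)) = true ↔ quo E e (p i) (p j) = true
    rw [q2 _ _ h5]

end Pool.Agent.Helper305_DH
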